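import Mathlib
import Pool.Agent.H48.Vonorm.Form

/-!
# Facet classes of a positive form modulo two

`π : G →+ K` is reduction modulo `2G`; `v c` is a shortest vector of the class `c`.
-/

set_option autoImplicit false
set_option linter.unusedSectionVars false

open Pool.H48.Vonorm

namespace Pool.H11.CS

variable {G K : Type*} [AddCommGroup G] [AddCommGroup K]

/-- `π` is reduction modulo `2G`. -/
structure Mod2 (π : G →+ K) : Prop where
  ker : ∀ x, π x = 0 → ∃ w, x = w + w
  two : ∀ c : K, c + c = 0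

/-- `v c` is a shortest vector of the class `c`. -/
structure Sys (π : G →+ K) (F : Form G) (v : K → G) : Prop where
  cls : ∀ c, π (v c) = c
  min : ∀ c x, π x = c → F.nm (v c) ≤ F.nm x

/-- the shortest vectors of the nonzero class `c` are exactly `± v c` -/
def Facet (π : G →+ K) (F : Form G) (v : K → G) (c : K) : Prop :=
  c ≠ 0 ∧ ∀ x, π x = c → F.nm x ≤ F.nm (v c) → x = v c ∨ x = -(v c)

section form

variable (F : Form G)

lemma nm_zero : F.nm 0 = 0 := F.zero_left 0

lemma nm_nonneg (x : G) : 0 ≤ F.nm x := by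
  by_cases h : x = 0
  · rw [h, nm_zero]
  · exact (F.pos x h).le

lemma nm_pos {x : G} (h : x ≠ 0) : 0 < F.nm x := F.pos x h

lemma eq_zero_of_nm {x : G} (h : F.nm x ≤ 0) : x = 0 := by
  by_contra hx
  exact absurd (F.pos x hx) (not_lt.mpr h)

lemma nm_double (x : G) : F.nm (x + x) = 4 * F.nm x := by
  rw [F.nm_add]; unfold Form.nm; ring

include F in
lemma eq_zero_of_double {x : G} (h : x + x = 0) : x = 0 := by
  apply eq_zero_of_nm F
  have := nm_double F x
  rw [h, nm_zero] at this
  linarith

/-- if `y ≠ ± x` is a vector of the class of `x` of norm at most `nm x`, then `x` splits. -/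
lemma split_of {x s y : G} (hs : x + y = s + s) :
    x = s + (x - s) ∧ y = s - (x - s) ∧ F.nm s + F.nm (x - s) = (F.nm x + F.nm y) / 2 := by
  have hy : y = s + s - x := by rw [← hs]; abel
  refine ⟨by abel, by rw [hy]; abel, ?_⟩
  rw [hy, F.nm_sub, F.nm_sub, nm_double, F.add_left, F.comm x s]
  ring

/-- the inequality defining a facet vector -/
lemma facet_eq {x z : G} (π : G →+ K) (hπ : Mod2 π)
    (hx : ∀ y, π y = π x → F.nm y ≤ F.nm x → y = x ∨ y = -x)
    (h : F.b x z = F.nm z) : z = 0 ∨ z = x := by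
  have h1 : π (x - (z + z)) = π x := by
    rw [map_sub, map_add, hπ.two, sub_zero]
  have h2 : F.nm (x - (z + z)) ≤ F.nm x := by
    rw [F.nm_sub, nm_double, F.add_right, h]
    linarith
  rcases hx _ h1 h2 with h3 | h3
  · left
    apply eq_zero_of_double F
    have : x - (z + z) = x - 0 := by rw [h3, sub_zero]
    exact sub_right_injective this
  · right
    have h4 : (z - x) + (z - x) = 0 := by
      have : (z - x) + (z - x) = -(x - (z + z)) - x := by abel
      rw [this, h3]; abel
    have := eq_zero_of_double F h4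
    rwa [sub_eq_zero] at this

end form

section facet

variable {π : G →+ K} {F : Form G} {v : K → G}

lemma Sys.ne_zero (hv : Sys π F v) {c : K} (hc : c ≠ 0) : v c ≠ 0 := by
  intro h
  apply hc
  rw [← hv.cls c, h, map_zero]

lemma Sys.pos (hv : Sys π F v) {c : K} (hc : c ≠ 0) : 0 < F.nm (v c) :=
  nm_pos F (hv.ne_zero hc)

lemma sub_eq_add' (hπ : Mod2 π) (a b : K) : a - b = a + b := by
  rw [sub_eq_add_neg, neg_eq_of_add_eq_zero_left (hπ.two b)]

lemma neg_eq' (hπ : Mod2 π) (a : K) : -a = a := neg_eq_of_add_eq_zero_left (hπ.two a)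

lemma facet_iff (hπ : Mod2 π) (hv : Sys π F v) (c : K) :
    Facet π F v c ↔ c ≠ 0 ∧ ∀ a b, a ≠ 0 → b ≠ 0 → a + b = c →
      F.nm (v c) < F.nm (v a) + F.nm (v b) := by
  constructor
  · rintro ⟨hc, h⟩
    refine ⟨hc, fun a b ha hb hab => ?_⟩
    by_contra hlt
    push Not at hlt
    have c1 : π (v a + v b) = c := by rw [map_add, hv.cls, hv.cls, hab]
    have c2 : π (v a - v b) = c := by rw [map_sub, hv.cls, hv.cls, sub_eq_add' hπ, hab]
    have m1 := hv.min c _ c1
    have m2 := hv.min c _ c2
    have e1 := F.nm_add (v a) (v b)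
    have e2 := F.nm_sub (v a) (v b)
    have h1 := h _ c1 (by linarith)
    have h2 := h _ c2 (by linarith)
    have key : v a = 0 ∨ v b = 0 := by
      have hcase : v a + v b = v a - v b ∨ v a + v b = -(v a - v b) := by
        rcases h1 with h1 | h1 <;> rcases h2 with h2 | h2 <;> rw [h1, h2]
        · left; rfl
        · right; abel
        · right; rfl
        · left; rfl
      rcases hcase with h3 | h3
      · right
        apply eq_zero_of_double F
        have : v b + v b = (v a + v b) - (v a - v b) := by abel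
        rw [this, h3, sub_self]
      · left
        apply eq_zero_of_double F
        have : v a + v a = (v a + v b) + (v a - v b) := by abel
        rw [this, h3]; abel
    rcases key with h3 | h3
    · exact hv.ne_zero ha h3
    · exact hv.ne_zero hb h3
  · rintro ⟨hc, h⟩
    refine ⟨hc, fun x hx hle => ?_⟩
    by_contra hne
    push Not at hne
    obtain ⟨hne1, hne2⟩ := hne
    have h0 : π (x + v c) = 0 := by rw [map_add, hx, hv.cls, hπ.two]
    obtain ⟨s, hs⟩ := hπ.ker _ h0
    obtain ⟨e1, e2, e3⟩ := split_of F hs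
    set t := x - s with ht
    have hab : π s + π t = c := by rw [← map_add, ← e1, hx]
    have hs0 : π s ≠ 0 := by
      intro h4
      rw [h4, zero_add] at hab
      have := hv.min c t hab
      have h5 : s = 0 := eq_zero_of_nm F (by linarith)
      apply hne2
      rw [e2, e1, h5]; abel
    have ht0 : π t ≠ 0 := by
      intro h4
      rw [h4, add_zero] at hab
      have := hv.min c s hab
      have h5 : t = 0 := eq_zero_of_nm F (by linarith)
      apply hne1
      rw [e2, e1, h5]; abel
    have l1 := h _ _ hs0 ht0 hab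
    have l2 := hv.min _ s rfl
    have l3 := hv.min _ t rfl
    linarith

lemma Facet.self (hv : Sys π F v) {c : K} (hc : Facet π F v c) (y : G)
    (h : π y = π (v c)) (hy : F.nm y ≤ F.nm (v c)) : y = v c ∨ y = -(v c) :=
  hc.2 y (by rw [h, hv.cls]) hy

/-- integer combination of the vectors `v c` -/
def comb [Fintype K] (v : K → G) (n : K → ℤ) : G := ∑ c, n c • v c

variable [Fintype K]

lemma comb_add (v : K → G) (n m : K → ℤ) : comb v (n + m) = comb v n + comb v m := by
  simp only [comb, Pi.add_apply, add_smul, Finset.sum_add_distrib]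

lemma comb_neg (v : K → G) (n : K → ℤ) : comb v (-n) = -comb v n := by
  simp only [comb, Pi.neg_apply, neg_smul, Finset.sum_neg_distrib]

lemma comb_sub (v : K → G) (n m : K → ℤ) : comb v (n - m) = comb v n - comb v m := by
  rw [sub_eq_add_neg, comb_add, comb_neg, sub_eq_add_neg]

lemma comb_single [DecidableEq K] (v : K → G) (c : K) (k : ℤ) :
    comb v (Pi.single c k) = k • v c := by
  unfold comb
  rw [Finset.sum_eq_single c]
  · simp
  · intro d _ hd; simp [hd]
  · intro h; exact absurd (Finset.mem_univ c) h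

lemma b_sum_left (F : Form G) {ι : Type*} (s : Finset ι) (f : ι → G) (y : G) :
    F.b (∑ i ∈ s, f i) y = ∑ i ∈ s, F.b (f i) y := by
  classical
  induction s using Finset.induction_on with
  | empty => simp [F.zero_left]
  | insert a s ha ih => rw [Finset.sum_insert ha, Finset.sum_insert ha, F.add_left, ih]

lemma b_sum_right (F : Form G) {ι : Type*} (s : Finset ι) (f : ι → G) (y : G) :
    F.b y (∑ i ∈ s, f i) = ∑ i ∈ s, F.b y (f i) := by
  rw [F.comm, b_sum_left]
  exact Finset.sum_congr rfl fun i _ => F.comm _ _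

lemma b_nsmul_left (F : Form G) (k : ℕ) (x y : G) : F.b (k • x) y = (k : ℝ) * F.b x y := by
  induction k with
  | zero => simp [F.zero_left]
  | succ k ih => rw [add_smul, one_smul, F.add_left, ih]; push_cast; ring

lemma b_zsmul_left (F : Form G) (k : ℤ) (x y : G) : F.b (k • x) y = (k : ℝ) * F.b x y := by
  obtain ⟨n, rfl | rfl⟩ := k.eq_nat_or_neg
  · rw [natCast_zsmul, b_nsmul_left]; simp
  · rw [neg_smul, natCast_zsmul, F.neg_left, b_nsmul_left]; push_cast; ring

lemma b_zsmul_right (F : Form G) (k : ℤ) (x y : G) : F.b x (k • y) = (k : ℝ) * F.b x y := by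
  rw [F.comm, b_zsmul_left, F.comm]

lemma b_comb (F : Form G) (v v' : K → G) (n m : K → ℤ) :
    F.b (comb v n) (comb v' m) = ∑ c, ∑ d, (n c : ℝ) * ((m d : ℝ) * F.b (v c) (v' d)) := by
  unfold comb
  rw [b_sum_left]
  refine Finset.sum_congr rfl fun c _ => ?_
  rw [b_zsmul_left, b_sum_right, Finset.mul_sum]
  refine Finset.sum_congr rfl fun d _ => ?_
  rw [b_zsmul_right]

lemma b_comb_right (F : Form G) (v : K → G) (x : G) (m : K → ℤ) :
    F.b x (comb v m) = ∑ d, (m d : ℝ) * F.b x (v d) := by
  unfold comb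
  rw [b_sum_right]
  refine Finset.sum_congr rfl fun d _ => ?_
  rw [b_zsmul_right]

/-- Every vector is an integer combination of facet vectors of small total norm. -/
lemma exists_decomp [DecidableEq K] (hπ : Mod2 π) (hv : Sys π F v) (x : G) :
    ∃ (n : K → ℤ) (Q : Finset K), (∀ c ∈ Q, Facet π F v c) ∧ (∀ c, c ∉ Q → n c = 0) ∧
      x = comb v n ∧ ∑ c ∈ Q, F.nm (v c) ≤ F.nm x := by
  by_contra hx
  obtain ⟨x, hx, hmin⟩ := F.wf
    {x | ¬ ∃ (n : K → ℤ) (Q : Finset K), (∀ c ∈ Q, Facet π F v c) ∧ (∀ c, c ∉ Q → n c = 0) ∧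
      x = comb v n ∧ ∑ c ∈ Q, F.nm (v c) ≤ F.nm x} ⟨x, hx⟩
  simp only [Set.mem_ofPred_eq] at hx hmin
  apply hx
  -- smaller vectors decompose
  have small : ∀ y, F.nm y < F.nm x → ∃ (n : K → ℤ) (Q : Finset K),
      (∀ c ∈ Q, Facet π F v c) ∧ (∀ c, c ∉ Q → n c = 0) ∧
      y = comb v n ∧ ∑ c ∈ Q, F.nm (v c) ≤ F.nm y := by
    intro y hy
    by_contra h
    exact absurd (hmin y h) (not_le.mpr hy)
  by_cases h0 : x = 0
  · refine ⟨0, ∅, by simp, by simp, ?_, by simp [nm_nonneg]⟩
    rw [h0]; simp [comb]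
  by_cases hex : ∃ y, π y = π x ∧ F.nm y ≤ F.nm x ∧ y ≠ x ∧ y ≠ -x
  · obtain ⟨y, hy1, hy2, hy3, hy4⟩ := hex
    have hk : π (x + y) = 0 := by rw [map_add, hy1, hπ.two]
    obtain ⟨s, hs⟩ := hπ.ker _ hk
    obtain ⟨e1, e2, e3⟩ := split_of F hs
    set t := x - s with ht
    have hs0 : s ≠ 0 := by
      intro h; apply hy4; rw [e2, e1, h]; abel
    have ht0 : t ≠ 0 := by
      intro h; apply hy3; rw [e2, e1, h]; abel
    have ps := nm_pos F hs0
    have pt := nm_pos F ht0
    obtain ⟨n, Q, q1, q2, q3, q4⟩ := small s (by linarith)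
    obtain ⟨m, R, r1, r2, r3, r4⟩ := small t (by linarith)
    refine ⟨n + m, Q ∪ R, ?_, ?_, ?_, ?_⟩
    · intro c hc
      rcases Finset.mem_union.mp hc with h | h
      · exact q1 c h
      · exact r1 c h
    · intro c hc
      rw [Finset.mem_union, not_or] at hc
      rw [Pi.add_apply, q2 c hc.1, r2 c hc.2, add_zero]
    · rw [comb_add, ← q3, ← r3]; exact e1
    · have h5 : ∑ c ∈ Q ∪ R, F.nm (v c) ≤ ∑ c ∈ Q, F.nm (v c) + ∑ c ∈ R, F.nm (v c) := by
        rw [← Finset.sum_union_inter]
        have : 0 ≤ ∑ c ∈ Q ∩ R, F.nm (v c) := Finset.sum_nonneg fun c _ => nm_nonneg F _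
        linarith
      linarith
  · push Not at hex
    have hf : ∀ y, π y = π x → F.nm y ≤ F.nm x → y = x ∨ y = -x := by
      intro y h1 h2
      by_contra h3
      rw [not_or] at h3
      exact h3.2 (hex y h1 h2 h3.1)
    have hc0 : π x ≠ 0 := by
      intro h
      rcases hf 0 (by rw [map_zero, h]) (by rw [nm_zero]; exact nm_nonneg F x) with h1 | h1
      · exact h0 h1.symm
      · exact h0 (by rw [← neg_neg x, ← h1, neg_zero])
    have hvx := hf (v (π x)) (hv.cls _) (hv.min _ x rfl)
    have hnm : F.nm (v (π x)) = F.nm x := by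
      rcases hvx with h | h
      · rw [h]
      · rw [h, F.nm_neg]
    have hfac : Facet π F v (π x) := by
      refine ⟨hc0, fun y h1 h2 => ?_⟩
      rw [hnm] at h2
      rcases hf y h1 h2 with h3 | h3 <;> rcases hvx with h4 | h4
      · left; rw [h3, h4]
      · right; rw [h3, h4, neg_neg]
      · right; rw [h3, h4]
      · left; rw [h3, h4]
    rcases hvx with h4 | h4
    · refine ⟨Pi.single (π x) 1, {π x}, ?_, ?_, ?_, ?_⟩
      · intro c hc; rw [Finset.mem_singleton] at hc; rw [hc]; exact hfac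
      · intro c hc; rw [Finset.mem_singleton] at hc; simp [hc]
      · rw [comb_single, one_smul, h4]
      · rw [Finset.sum_singleton, hnm]
    · refine ⟨Pi.single (π x) (-1), {π x}, ?_, ?_, ?_, ?_⟩
      · intro c hc; rw [Finset.mem_singleton] at hc; rw [hc]; exact hfac
      · intro c hc; rw [Finset.mem_singleton] at hc; simp [hc]
      · rw [comb_single, neg_smul, one_smul, h4, neg_neg]
      · rw [Finset.sum_singleton, hnm]

end facet

end Pool.H11.CS
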