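import Mathlib
import Pool.Agent.H11.CS.Basic

/-!
# Coherent sets of facet classes and the case of a pair
-/

set_option autoImplicit false
set_option linter.unusedSectionVars false

open Pool.H48.Vonorm

namespace Pool.H11.CS

variable {G K : Type*} [AddCommGroup G] [AddCommGroup K] [Fintype K] [DecidableEq K]

/-- `a` is obtained from `w` by changing signs -/
def IsLift (w a : K → G) : Prop := ∀ c, a c = w c ∨ a c = -w c

/-- The set `S` of classes is coherent: signs can be chosen so that inner products agree. -/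
def Coh (F F' : Form G) (v w : K → G) (S : Finset K) : Prop :=
  ∃ a : K → G, IsLift w a ∧ ∀ s ∈ S, ∀ t ∈ S, F.b (v s) (v t) = F'.b (a s) (a t)

/-- Two forms with the same minima on all classes modulo two. -/
structure Twin (π : G →+ K) (F F' : Form G) (v w : K → G) : Prop where
  mod : Mod2 π
  sv : Sys π F v
  sw : Sys π F' w
  nm : ∀ c, F.nm (v c) = F'.nm (w c)

/-- weight of a set of classes -/
def W (F : Form G) (v : K → G) (S : Finset K) : ℝ := ∑ c ∈ S, F.nm (v c)

variable {π : G →+ K} {F F' : Form G} {v w : K → G}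

lemma IsLift.refl (w : K → G) : IsLift w w := fun _ => Or.inl rfl

lemma IsLift.neg {a : K → G} (h : IsLift w a) : IsLift w (fun c => -a c) := fun c => by
  rcases h c with h | h
  · right; change -a c = _; rw [h]
  · left; change -a c = _; rw [h, neg_neg]

lemma IsLift.pm {a b : K → G} (ha : IsLift w a) (hb : IsLift w b) (c : K) :
    a c = b c ∨ a c = -b c := by
  rcases ha c with h | h <;> rcases hb c with h' | h'
  · left; rw [h, h']
  · right; rw [h, h', neg_neg]
  · right; rw [h, h']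
  · left; rw [h, h']

lemma IsLift.nm {a : K → G} (h : IsLift w a) (F : Form G) (c : K) : F.nm (a c) = F.nm (w c) := by
  rcases h c with h | h
  · rw [h]
  · rw [h, F.nm_neg]

lemma IsLift.cls {a : K → G} (hπ : Mod2 π) (hw : ∀ c, π (w c) = c) (h : IsLift w a) (c : K) :
    π (a c) = c := by
  rcases h c with h | h
  · rw [h, hw]
  · rw [h, map_neg, hw, neg_eq' hπ]

lemma W_nonneg (F : Form G) (v : K → G) (S : Finset K) : 0 ≤ W F v S :=
  Finset.sum_nonneg fun _ _ => nm_nonneg F _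

lemma W_mono (F : Form G) (v : K → G) {S T : Finset K} (h : S ⊆ T) : W F v S ≤ W F v T :=
  Finset.sum_le_sum_of_subset_of_nonneg h fun _ _ _ => nm_nonneg F _

lemma W_union (F : Form G) (v : K → G) (S T : Finset K) :
    W F v (S ∪ T) ≤ W F v S + W F v T := by
  unfold W
  rw [← Finset.sum_union_inter]
  have : 0 ≤ ∑ c ∈ S ∩ T, F.nm (v c) := Finset.sum_nonneg fun c _ => nm_nonneg F _
  linarith

lemma W_insert (F : Form G) (v : K → G) (c : K) (S : Finset K) :
    W F v (insert c S) ≤ F.nm (v c) + W F v S := by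
  rw [Finset.insert_eq]
  refine (W_union F v _ _).trans ?_
  unfold W
  rw [Finset.sum_singleton]

lemma Twin.symm (P : Twin π F F' v w) : Twin π F' F w v :=
  ⟨P.mod, P.sw, P.sv, fun c => (P.nm c).symm⟩

lemma Twin.W_eq (P : Twin π F F' v w) (S : Finset K) : W F v S = W F' w S :=
  Finset.sum_congr rfl fun c _ => P.nm c

lemma Twin.facet (P : Twin π F F' v w) (c : K) : Facet π F v c ↔ Facet π F' w c := by
  rw [facet_iff P.mod P.sv, facet_iff P.mod P.sw]
  simp only [P.nm]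

lemma Coh.mono {S T : Finset K} (h : S ⊆ T) (hT : Coh F F' v w T) : Coh F F' v w S := by
  obtain ⟨a, ha, hb⟩ := hT
  exact ⟨a, ha, fun s hs t ht => hb s (h hs) t (h ht)⟩

lemma Coh.symm {S : Finset K} (h : Coh F F' v w S) : Coh F' F w v S := by
  classical
  obtain ⟨a, ha, hb⟩ := h
  refine ⟨fun c => if a c = w c then v c else -v c, ?_, ?_⟩
  · intro c
    by_cases h : a c = w c
    · left; simp [h]
    · right; simp [h]
  · intro s hs t ht
    have h1 := hb s hs t ht
    by_cases h2 : a s = w s <;> by_cases h3 : a t = w t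
    · simp only [h2, h3, if_true] at h1 ⊢; exact h1.symm
    · have h4 : a t = - w t := (ha t).resolve_left h3
      simp only [h2, h3, if_true, if_false, F.neg_right] at h1 ⊢
      rw [h1, h4, F'.neg_right, neg_neg]
    · have h4 : a s = - w s := (ha s).resolve_left h2
      simp only [h2, h3, if_true, if_false, F.neg_left] at h1 ⊢
      rw [h1, h4, F'.neg_left, neg_neg]
    · have h4 : a s = - w s := (ha s).resolve_left h2
      have h5 : a t = - w t := (ha t).resolve_left h3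
      simp only [h2, h3, if_false, F.neg_left, F.neg_right, neg_neg] at h1 ⊢
      rw [h1, h4, h5, F'.neg_left, F'.neg_right, neg_neg]

/-- the class of an integer combination does not depend on the lift -/
lemma cls_comb {a b : K → G} (ha : ∀ c, π (a c) = c) (hb : ∀ c, π (b c) = c) (n : K → ℤ) :
    π (comb a n) = π (comb b n) := by
  simp only [comb, map_sum, map_zsmul, ha, hb]

/-- a coherent lift preserves inner products of combinations -/
lemma coh_b {a : K → G} {S T : Finset K}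
    (h : ∀ s ∈ S, ∀ t ∈ T, F.b (v s) (v t) = F'.b (a s) (a t)) {n m : K → ℤ}
    (hn : ∀ c, c ∉ S → n c = 0) (hm : ∀ c, c ∉ T → m c = 0) :
    F.b (comb v n) (comb v m) = F'.b (comb a n) (comb a m) := by
  rw [b_comb, b_comb]
  refine Finset.sum_congr rfl fun c _ => Finset.sum_congr rfl fun d _ => ?_
  by_cases hc : c ∈ S
  · by_cases hd : d ∈ T
    · rw [h c hc d hd]
    · rw [hm d hd]; simp
  · rw [hn c hc]; simp

lemma coh_b_right {a : K → G} {T : Finset K} {s : K}
    (h : ∀ t ∈ T, F.b (v s) (v t) = F'.b (a s) (a t)) {m : K → ℤ}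
    (hm : ∀ c, c ∉ T → m c = 0) :
    F.b (v s) (comb v m) = F'.b (a s) (comb a m) := by
  rw [b_comb_right, b_comb_right]
  refine Finset.sum_congr rfl fun d _ => ?_
  by_cases hd : d ∈ T
  · rw [h d hd]
  · rw [hm d hd]; simp

/-- orthogonal supports -/
lemma b_comb_zero {n m : K → ℤ} (h : ∀ c d, n c ≠ 0 → m d ≠ 0 → F.b (v c) (v d) = 0) :
    F.b (comb v n) (comb v m) = 0 := by
  rw [b_comb]
  refine Finset.sum_eq_zero fun c _ => Finset.sum_eq_zero fun d _ => ?_
  by_cases hc : n c = 0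
  · rw [hc]; simp
  · by_cases hd : m d = 0
    · rw [hd]; simp
    · rw [h c d hc hd]; simp

lemma b_comb_right_zero {x : G} {m : K → ℤ} (h : ∀ d, m d ≠ 0 → F.b x (v d) = 0) :
    F.b x (comb v m) = 0 := by
  rw [b_comb_right]
  refine Finset.sum_eq_zero fun d _ => ?_
  by_cases hd : m d = 0
  · rw [hd]; simp
  · rw [h d hd]; simp

/-! ### Pairs -/

/-- decomposition in the second lattice -/
lemma Twin.decomp' (P : Twin π F F' v w) (x : G) :
    ∃ (n : K → ℤ) (Q : Finset K), (∀ c ∈ Q, Facet π F v c) ∧ (∀ c, c ∉ Q → n c = 0) ∧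
      x = comb w n ∧ W F v Q ≤ F'.nm x := by
  obtain ⟨n, Q, h1, h2, h3, h4⟩ := exists_decomp P.mod P.sw x
  refine ⟨n, Q, fun c hc => (P.facet c).mpr (h1 c hc), h2, h3, ?_⟩
  rw [P.W_eq]; exact h4

lemma pair_core (P : Twin π F F' v w) {c d : K} (hc : Facet π F v c) (hd : Facet π F v d)
    {g0 g1 g2 : G}
    (h1 : g0 + g1 = w c ∨ g0 + g1 = -w c) (h2 : g0 + g2 = w d ∨ g0 + g2 = -w d)
    (h3 : π (g1 + g2) = c + d) (h3' : F'.nm (g1 + g2) = F'.nm (w (c + d)))
    (H : ∀ S : Finset K, (∀ s ∈ S, Facet π F v s) → W F v S < F.nm (v c) + F.nm (v d) →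
      Coh F F' v w S)
    (l1 : F'.nm g0 + F'.nm g1 < F.nm (v c) + F.nm (v d))
    (l2 : F'.nm g2 < F.nm (v d)) :
    |F.b (v c) (v d)| = |F'.b (w c) (w d)| := by
  have hπ := P.mod
  obtain ⟨n0, Q0, a1, a2, a3, a4⟩ := P.decomp' g0
  obtain ⟨n1, Q1, b1, b2, b3, b4⟩ := P.decomp' g1
  obtain ⟨n2, Q2, c1, c2, c3, c4⟩ := P.decomp' g2
  -- first coherent set
  have coh1 : Coh F F' v w (Q0 ∪ Q1) := by
    apply H
    · intro s hs
      rcases Finset.mem_union.mp hs with h | h
      · exact a1 s h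
      · exact b1 s h
    · have := W_union F v Q0 Q1
      linarith
  have coh2 : Coh F F' v w (insert c Q2) := by
    apply H
    · intro s hs
      rcases Finset.mem_insert.mp hs with h | h
      · rw [h]; exact hc
      · exact c1 s h
    · have := W_insert F v c Q2
      linarith
  obtain ⟨a, ha, ha'⟩ := coh1.symm
  obtain ⟨b, hb, hb'⟩ := coh2.symm
  have hacls := ha.cls hπ P.sv.cls
  have hbcls := hb.cls hπ P.sv.cls
  have n0' : ∀ c, c ∉ Q0 ∪ Q1 → n0 c = 0 := fun c h => a2 c fun h' => h (Finset.mem_union_left _ h')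
  have n1' : ∀ c, c ∉ Q0 ∪ Q1 → n1 c = 0 := fun c h => b2 c fun h' => h (Finset.mem_union_right _ h')
  set A0 := comb a n0 with hA0
  set A1 := comb a n1 with hA1
  have e00 : F'.b g0 g0 = F.b A0 A0 := by rw [a3]; exact coh_b ha' n0' n0'
  have e01 : F'.b g0 g1 = F.b A0 A1 := by
    rw [a3, b3]; exact coh_b ha' n0' n1'
  have e11 : F'.b g1 g1 = F.b A1 A1 := by rw [b3]; exact coh_b ha' n1' n1'
  have p0 : π A0 = π g0 := by rw [a3]; exact cls_comb hacls P.sw.cls n0
  have p1 : π A1 = π g1 := by rw [b3]; exact cls_comb hacls P.sw.cls n1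
  have hg01 : F'.nm (g0 + g1) = F.nm (v c) := by
    rw [P.nm]
    rcases h1 with h | h
    · rw [h]
    · rw [h, F'.nm_neg]
  have pg01 : π (g0 + g1) = c := by
    rcases h1 with h | h
    · rw [h, P.sw.cls]
    · rw [h, map_neg, P.sw.cls, neg_eq' hπ]
  have hA01 : F.nm (A0 + A1) = F.nm (v c) := by
    rw [← hg01, F.nm_add, F'.nm_add]
    unfold Form.nm
    rw [e00, e01, e11]
  have hAv : A0 + A1 = v c ∨ A0 + A1 = -v c :=
    hc.2 _ (by rw [map_add, p0, p1, ← map_add, pg01]) hA01.le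
  -- second coherent set
  obtain ⟨σ, hσ, hgσ⟩ : ∃ σ : ℤ, (σ = 1 ∨ σ = -1) ∧ g0 + g1 = σ • w c := by
    rcases h1 with h | h
    · exact ⟨1, Or.inl rfl, by rw [h, one_smul]⟩
    · exact ⟨-1, Or.inr rfl, by rw [h, neg_smul, one_smul]⟩
  have m1 : ∀ k, k ∉ insert c Q2 → (Pi.single c σ : K → ℤ) k = 0 := by
    intro k hk
    have : k ≠ c := fun h => hk (by rw [h]; exact Finset.mem_insert_self _ _)
    simp [this]
  have m2 : ∀ k, k ∉ insert c Q2 → n2 k = 0 := fun k hk =>
    c2 k fun h' => hk (Finset.mem_insert_of_mem h')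
  have e12 : F'.b (g0 + g1) g2 = F.b (σ • b c) (comb b n2) := by
    rw [hgσ, c3, ← comb_single w, ← comb_single b]
    exact coh_b hb' m1 m2
  have e22 : F'.b g2 g2 = F.b (comb b n2) (comb b n2) := by
    rw [c3]
    exact coh_b hb' m2 m2
  have p2 : π (comb b n2) = π g2 := by rw [c3]; exact cls_comb hbcls P.sw.cls n2
  have hbc : A0 + A1 = σ • b c ∨ A0 + A1 = -(σ • b c) := by
    rcases hAv with h | h <;> rcases hb c with h' | h' <;> rcases hσ with h'' | h'' <;>
      rw [h, h', h''] <;> simp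
  obtain ⟨B, q2, r2, s2⟩ : ∃ B : G, π B = π g2 ∧ F.b B B = F'.b g2 g2 ∧
      F.b (A0 + A1) B = F'.b (g0 + g1) g2 := by
    rcases hbc with h | h
    · exact ⟨comb b n2, p2, e22.symm, by rw [h, e12]⟩
    · refine ⟨-comb b n2, by rw [map_neg, p2, neg_eq' hπ], ?_, ?_⟩
      · rw [F.neg_left, F.neg_right, neg_neg, e22]
      · rw [h, F.neg_left, F.neg_right, neg_neg, e12]
  -- the two vectors
  have pg02 : π (g0 + g2) = d := by
    rcases h2 with h | h
    · rw [h, P.sw.cls]
    · rw [h, map_neg, P.sw.cls, neg_eq' hπ]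
  have hg02 : F'.nm (g0 + g2) = F.nm (v d) := by
    rw [P.nm]
    rcases h2 with h | h
    · rw [h]
    · rw [h, F'.nm_neg]
  have u0 := P.sv.min d (A0 + B) (by rw [map_add, p0, q2, ← map_add, pg02])
  have u1 := P.sv.min (c + d) (A1 + B) (by rw [map_add, p1, q2, ← map_add, h3])
  rw [P.nm (c + d), ← h3'] at u1
  rw [← hg02] at u0
  rw [F.nm_add, F'.nm_add] at u0 u1
  unfold Form.nm at u0 u1
  rw [F.add_left, F'.add_left] at s2
  have key : F.b A0 B = F'.b g0 g2 := by linarith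
  have hu : F.nm (A0 + B) ≤ F.nm (v d) := by
    rw [← hg02, F.nm_add, F'.nm_add]
    unfold Form.nm
    rw [key, ← e00, r2]
  have hud := hd.2 (A0 + B) (by rw [map_add, p0, q2, ← map_add, pg02]) hu
  have final : F.b (A0 + A1) (A0 + B) = F'.b (g0 + g1) (g0 + g2) := by
    have s3 : F.b (A0 + A1) B = F'.b (g0 + g1) g2 := by rw [F.add_left, F'.add_left]; exact s2
    have s4 : F.b (A0 + A1) A0 = F'.b (g0 + g1) g0 := by
      rw [F.add_left, F'.add_left, ← e00, F.comm A1 A0, ← e01, F'.comm g1 g0]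
    rw [F.add_right, F'.add_right, s3, s4]
  have f1 : |F.b (A0 + A1) (A0 + B)| = |F.b (v c) (v d)| := by
    rcases hAv with h | h <;> rcases hud with h' | h' <;> rw [h, h'] <;>
      simp [F.neg_left, F.neg_right]
  have f2 : |F'.b (g0 + g1) (g0 + g2)| = |F'.b (w c) (w d)| := by
    rcases h1 with h | h <;> rcases h2 with h' | h' <;> rw [h, h'] <;>
      simp [F'.neg_left, F'.neg_right]
  rw [← f1, ← f2, final]

/-- A bad pair cannot be minimal. -/
lemma pair_le (P : Twin π F F' v w) {c d : K} (hc : Facet π F v c) (hd : Facet π F v d)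
    (H : ∀ S : Finset K, (∀ s ∈ S, Facet π F v s) → W F v S < F.nm (v c) + F.nm (v d) →
      Coh F F' v w S) :
    |F.b (v c) (v d)| ≤ |F'.b (w c) (w d)| := by
  by_contra hlt
  push Not at hlt
  have hπ := P.mod
  have hne := hlt.ne'
  -- `V (c + d)` is small
  have hV : F.nm (v (c + d)) ≤ F.nm (v c) + F.nm (v d) - 2 * |F.b (v c) (v d)| := by
    have m1 := P.sv.min (c + d) (v c + v d) (by rw [map_add, P.sv.cls, P.sv.cls])
    have m2 := P.sv.min (c + d) (v c - v d) (by
      rw [map_sub, P.sv.cls, P.sv.cls, sub_eq_add' hπ])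
    rw [F.nm_add] at m1
    rw [F.nm_sub] at m2
    rcases abs_cases (F.b (v c) (v d)) with ⟨h, _⟩ | ⟨h, _⟩ <;> rw [h] <;> linarith
  set y := w (c + d) with hy
  have hk : π (w c + w d + y) = 0 := by
    rw [map_add, map_add, P.sw.cls, P.sw.cls, hy, P.sw.cls, hπ.two]
  obtain ⟨g, hg⟩ := hπ.ker _ hk
  have hpy : π y = c + d := P.sw.cls _
  have hpy' : π (-y) = c + d := by rw [map_neg, hpy, neg_eq' hπ]
  have hgg : y = g + g - w c - w d := by rw [← hg]; abel
  -- the four vectors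
  obtain ⟨G1, hG1⟩ : ∃ G1, G1 = w c - g := ⟨_, rfl⟩
  obtain ⟨G2, hG2⟩ : ∃ G2, G2 = w d - g := ⟨_, rfl⟩
  obtain ⟨G3, hG3⟩ : ∃ G3, G3 = y - g := ⟨_, rfl⟩
  have s01 : g + G1 = w c := by rw [hG1]; abel
  have s02 : g + G2 = w d := by rw [hG2]; abel
  have s03 : g + G3 = y := by rw [hG3]; abel
  have s23 : G2 + G3 = -w c := by rw [hG2, hG3, hgg]; abel
  have s13 : G1 + G3 = -w d := by rw [hG1, hG3, hgg]; abel
  have s12 : G1 + G2 = -y := by rw [hG1, hG2, hgg]; abel
  have s0 : g = -(G1 + G2 + G3) := by rw [hG1, hG2, hG3, hgg]; abel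
  have v01 : F'.nm (w c) = F'.nm g + F'.nm G1 + 2 * F'.b g G1 := by rw [← s01, F'.nm_add]
  have v02 : F'.nm (w d) = F'.nm g + F'.nm G2 + 2 * F'.b g G2 := by rw [← s02, F'.nm_add]
  have v03 : F'.nm y = F'.nm g + F'.nm G3 + 2 * F'.b g G3 := by rw [← s03, F'.nm_add]
  have v23 : F'.nm (w c) = F'.nm G2 + F'.nm G3 + 2 * F'.b G2 G3 := by
    rw [← F'.nm_neg (w c), ← s23, F'.nm_add]
  have v13 : F'.nm (w d) = F'.nm G1 + F'.nm G3 + 2 * F'.b G1 G3 := by
    rw [← F'.nm_neg (w d), ← s13, F'.nm_add]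
  have v12 : F'.nm y = F'.nm G1 + F'.nm G2 + 2 * F'.b G1 G2 := by
    rw [← F'.nm_neg y, ← s12, F'.nm_add]
  have r0 : F'.nm g + F'.b g G1 + F'.b g G2 + F'.b g G3 = 0 := by
    have : F'.b g (g + (G1 + G2 + G3)) = 0 := by
      have h0 : g + (G1 + G2 + G3) = 0 := by rw [← neg_eq_iff_add_eq_zero, s0, neg_neg]
      rw [h0, F'.zero_right]
    rw [F'.add_right, F'.add_right, F'.add_right] at this
    unfold Form.nm; linarith
  have hw' : y = w (c + d) := hy
  -- strictness
  have hyV : F'.nm y ≤ F'.nm (w c) + F'.nm (w d) - 2 * |F.b (v c) (v d)| := by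
    rw [← P.nm c, ← P.nm d, hw', ← P.nm (c + d)]; exact hV
  have l03 : F'.b g G3 < 0 := by
    have e : w c + w d = g - G3 := by rw [hG3, hgg]; abel
    have h1 : F'.nm (w c + w d) = F'.nm g + F'.nm G3 - 2 * F'.b g G3 := by rw [e, F'.nm_sub]
    rw [F'.nm_add] at h1
    have := neg_abs_le (F'.b (w c) (w d))
    linarith
  have l12 : F'.b G1 G2 < 0 := by
    have e : w c - w d = G1 - G2 := by rw [hG1, hG2]; abel
    have h1 : F'.nm (w c - w d) = F'.nm G1 + F'.nm G2 - 2 * F'.b G1 G2 := by rw [e, F'.nm_sub]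
    rw [F'.nm_sub] at h1
    have := le_abs_self (F'.b (w c) (w d))
    linarith
  have ha : 0 < |F.b (v c) (v d)| := lt_of_le_of_lt (abs_nonneg _) hlt
  have Hd : ∀ S : Finset K, (∀ s ∈ S, Facet π F v s) → W F v S < F.nm (v d) + F.nm (v c) →
      Coh F F' v w S := fun S hS hW => H S hS (by linarith)
  have hdc : d + c = c + d := add_comm d c
  -- the eight options
  have o1 : ¬ (F'.nm g + F'.nm G1 < F'.nm (w c) + F'.nm (w d) ∧ F'.nm G2 < F'.nm (w d)) := by
    rintro ⟨h1, h2⟩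
    rw [← P.nm c, ← P.nm d] at h1
    rw [← P.nm d] at h2
    exact hne (pair_core P hc hd (g0 := g) (g1 := G1) (g2 := G2) (Or.inl s01) (Or.inl s02)
      (by rw [s12, hpy']) (by rw [s12, F'.nm_neg]) H h1 h2)
  have o2 : ¬ (F'.nm g + F'.nm G1 < F'.nm (w c) + F'.nm (w d) ∧ F'.nm G3 < F'.nm (w d)) := by
    rintro ⟨h1, h2⟩
    rw [← P.nm c, ← P.nm d] at h1
    rw [← P.nm d] at h2
    exact hne (pair_core P hc hd (g0 := G1) (g1 := g) (g2 := G3)
      (Or.inl (by rw [add_comm, s01])) (Or.inr s13)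
      (by rw [s03, hpy]) (by rw [s03]) H (by linarith) h2)
  have o3 : ¬ (F'.nm G2 + F'.nm G3 < F'.nm (w c) + F'.nm (w d) ∧ F'.nm g < F'.nm (w d)) := by
    rintro ⟨h1, h2⟩
    rw [← P.nm c, ← P.nm d] at h1
    rw [← P.nm d] at h2
    exact hne (pair_core P hc hd (g0 := G2) (g1 := G3) (g2 := g)
      (Or.inr s23) (Or.inl (by rw [add_comm, s02]))
      (by rw [add_comm, s03, hpy]) (by rw [add_comm, s03]) H h1 h2)
  have o4 : ¬ (F'.nm G2 + F'.nm G3 < F'.nm (w c) + F'.nm (w d) ∧ F'.nm G1 < F'.nm (w d)) := by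
    rintro ⟨h1, h2⟩
    rw [← P.nm c, ← P.nm d] at h1
    rw [← P.nm d] at h2
    exact hne (pair_core P hc hd (g0 := G3) (g1 := G2) (g2 := G1)
      (Or.inr (by rw [add_comm, s23])) (Or.inr (by rw [add_comm, s13]))
      (by rw [add_comm, s12, hpy']) (by rw [add_comm, s12, F'.nm_neg]) H (by linarith) h2)
  have hne' : |F.b (v d) (v c)| ≠ |F'.b (w d) (w c)| := by
    rw [F.comm, F'.comm]; exact hne
  have o5 : ¬ (F'.nm g + F'.nm G2 < F'.nm (w c) + F'.nm (w d) ∧ F'.nm G1 < F'.nm (w c)) := by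
    rintro ⟨h1, h2⟩
    rw [← P.nm c, ← P.nm d] at h1
    rw [← P.nm c] at h2
    exact hne' (pair_core P hd hc (g0 := g) (g1 := G2) (g2 := G1) (Or.inl s02) (Or.inl s01)
      (by rw [add_comm, s12, hpy', hdc]) (by rw [add_comm, s12, F'.nm_neg, hdc]) Hd
      (by linarith) h2)
  have o6 : ¬ (F'.nm g + F'.nm G2 < F'.nm (w c) + F'.nm (w d) ∧ F'.nm G3 < F'.nm (w c)) := by
    rintro ⟨h1, h2⟩
    rw [← P.nm c, ← P.nm d] at h1
    rw [← P.nm c] at h2
    exact hne' (pair_core P hd hc (g0 := G2) (g1 := g) (g2 := G3)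
      (Or.inl (by rw [add_comm, s02])) (Or.inr s23)
      (by rw [s03, hpy, hdc]) (by rw [s03, hdc]) Hd (by linarith) h2)
  have o7 : ¬ (F'.nm G1 + F'.nm G3 < F'.nm (w c) + F'.nm (w d) ∧ F'.nm g < F'.nm (w c)) := by
    rintro ⟨h1, h2⟩
    rw [← P.nm c, ← P.nm d] at h1
    rw [← P.nm c] at h2
    exact hne' (pair_core P hd hc (g0 := G1) (g1 := G3) (g2 := g)
      (Or.inr s13) (Or.inl (by rw [add_comm, s01]))
      (by rw [add_comm, s03, hpy, hdc]) (by rw [add_comm, s03, hdc]) Hd (by linarith) h2)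
  have o8 : ¬ (F'.nm G1 + F'.nm G3 < F'.nm (w c) + F'.nm (w d) ∧ F'.nm G2 < F'.nm (w c)) := by
    rintro ⟨h1, h2⟩
    rw [← P.nm c, ← P.nm d] at h1
    rw [← P.nm c] at h2
    exact hne' (pair_core P hd hc (g0 := G3) (g1 := G1) (g2 := G2)
      (Or.inr (by rw [add_comm, s13])) (Or.inr (by rw [add_comm, s23]))
      (by rw [s12, hpy', hdc]) (by rw [s12, F'.nm_neg, hdc]) Hd (by linarith) h2)
  simp only [not_and, not_lt] at o1 o2 o3 o4 o5 o6 o7 o8
  have r1 : F'.nm G1 + F'.b g G1 + F'.b G1 G2 + F'.b G1 G3 = 0 := by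
    have h1 := r0
    linarith
  have r2 : F'.nm G2 + F'.b g G2 + F'.b G1 G2 + F'.b G2 G3 = 0 := by linarith
  have r3 : F'.nm G3 + F'.b g G3 + F'.b G1 G3 + F'.b G2 G3 = 0 := by linarith
  rcases lt_or_ge (F'.nm g + F'.nm G1) (F'.nm (w c) + F'.nm (w d)) with k1 | k1
  · rcases lt_or_ge (F'.nm g + F'.nm G2) (F'.nm (w c) + F'.nm (w d)) with k2 | k2
    · have a1 := o1 k1
      have a2 := o5 k2
      linarith
    · have k3 : F'.nm G1 + F'.nm G3 < F'.nm (w c) + F'.nm (w d) := by linarith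
      have a1 := o2 k1
      have a2 := o7 k3
      linarith
  · have k1' : F'.nm G2 + F'.nm G3 < F'.nm (w c) + F'.nm (w d) := by linarith
    rcases lt_or_ge (F'.nm g + F'.nm G2) (F'.nm (w c) + F'.nm (w d)) with k2 | k2
    · have a1 := o3 k1'
      have a2 := o6 k2
      linarith
    · have k3 : F'.nm G1 + F'.nm G3 < F'.nm (w c) + F'.nm (w d) := by linarith
      have a1 := o4 k1'
      have a2 := o8 k3
      linarith

lemma pair_eq (P : Twin π F F' v w) {c d : K} (hc : Facet π F v c) (hd : Facet π F v d)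
    (H : ∀ S : Finset K, (∀ s ∈ S, Facet π F v s) → W F v S < F.nm (v c) + F.nm (v d) →
      Coh F F' v w S) :
    |F.b (v c) (v d)| = |F'.b (w c) (w d)| := by
  apply le_antisymm
  · exact pair_le P hc hd H
  · refine pair_le P.symm ((P.facet c).mp hc) ((P.facet d).mp hd) ?_
    intro S hS hW
    apply Coh.symm
    apply H S (fun s hs => (P.facet s).mpr (hS s hs))
    rw [P.W_eq, P.nm c, P.nm d]
    exact hW

end Pool.H11.CS
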