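import Mathlib
import Pool.Agent.H11.CS.Coh

/-!
# Larger minimal incoherent sets
-/

set_option autoImplicit false
set_option linter.unusedSectionVars false

open Pool.H48.Vonorm

namespace Pool.H11.CS

variable {G K : Type*} [AddCommGroup G] [AddCommGroup K] [Fintype K] [DecidableEq K]
variable {π : G →+ K} {F F' : Form G} {v w : K → G}

/-- Splitting the support of a combination. -/
lemma comb_split (v : K → G) (p : K → Prop) [DecidablePred p] (n : K → ℤ) :
    comb v n = comb v (fun c => if p c then n c else 0) +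
      comb v (fun c => if p c then 0 else n c) := by
  rw [← comb_add]
  congr 1
  funext c
  by_cases h : p c <;> simp [h]

/-- Adjoining a class to a coherent set. -/
lemma coh_insert (P : Twin π F F' v w) {a : K → G} (ha : IsLift w a) {S : Finset K} {m : K}
    (h : ∀ s ∈ S, ∀ t ∈ S, F.b (v s) (v t) = F'.b (a s) (a t)) (x : G)
    (hx : x = w m ∨ x = -w m)
    (hm : ∀ s ∈ S, F.b (v s) (v m) = F'.b (a s) x) (hmS : m ∉ S) :
    Coh F F' v w (insert m S) := by
  have hxm : F.b (v m) (v m) = F'.b x x := by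
    have h1 := P.nm m
    unfold Form.nm at h1
    rw [h1]
    rcases hx with h | h
    · rw [h]
    · rw [h, F'.neg_left, F'.neg_right, neg_neg]
  refine ⟨Function.update a m x, ?_, ?_⟩
  · intro c
    by_cases hc : c = m
    · rw [hc, Function.update_self]; exact hx
    · rw [Function.update_of_ne hc]; exact ha c
  · intro s hs t ht
    rcases Finset.mem_insert.mp hs with h1 | h1 <;> rcases Finset.mem_insert.mp ht with h2 | h2
    · rw [h1, h2, Function.update_self]; exact hxm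
    · have h3 : t ≠ m := fun h => hmS (h ▸ h2)
      rw [h1, Function.update_self, Function.update_of_ne h3, F.comm, F'.comm]
      exact hm t h2
    · have h3 : s ≠ m := fun h => hmS (h ▸ h1)
      rw [h2, Function.update_self, Function.update_of_ne h3]
      exact hm s h1
    · have h3 : s ≠ m := fun h => hmS (h ▸ h1)
      have h4 : t ≠ m := fun h => hmS (h ▸ h2)
      rw [Function.update_of_ne h3, Function.update_of_ne h4]
      exact h s h1 t h2

/-- choice of a sign from equality of absolute values -/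
lemma sign_of_abs (F' : Form G) {r : ℝ} {x y : G} (h : |r| = |F'.b x y|) :
    ∃ z, (z = y ∨ z = -y) ∧ r = F'.b x z := by
  rcases abs_eq_abs.mp h with h | h
  · exact ⟨y, Or.inl rfl, h⟩
  · exact ⟨-y, Or.inr rfl, by rw [h, F'.neg_right]⟩

/-- The incoherence lemma. -/
lemma incoh (P : Twin π F F' v w) {Pt Q : Finset K} {k l : K} {θ : K → G} (hθ : IsLift w θ)
    (hcoh : ∀ s ∈ Pt ∪ Q, ∀ t ∈ Pt ∪ Q, F.b (v s) (v t) = F'.b (θ s) (θ t))
    (hconn : ∀ a b : K → G, IsLift w a → IsLift w b →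
      (∀ s ∈ Pt, ∀ t ∈ Pt, F.b (v s) (v t) = F'.b (a s) (a t)) →
      (∀ s ∈ Pt, ∀ t ∈ Pt, F.b (v s) (v t) = F'.b (b s) (b t)) →
      (∀ p ∈ Pt, a p = b p) ∨ (∀ p ∈ Pt, a p = -b p))
    {β : G} (hβ : β = w k ∨ β = -w k)
    (hβP : ∀ p ∈ Pt, F.b (v p) (v k) = F'.b (θ p) β)
    (hatt : ∃ p ∈ Pt, F.b (v p) (v k) ≠ 0)
    (hβQ : ∀ c ∈ Q, F.b (v k) (v c) = -F'.b β (θ c))
    {n n' : K → ℤ} (hn : ∀ c, n c ≠ 0 → c ∈ Q)
    (hsum : v k + v l = comb v n + comb v n')
    (horth : ∀ c d, n c ≠ 0 → n' d ≠ 0 → F.b (v c) (v d) = 0)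
    (hfac : ∀ y, π y = π (v l) → F.nm y ≤ F.nm (v l) → y = v l ∨ y = -(v l))
    (hl : ∀ p ∈ Pt, F.b (v p) (comb v n) = F.b (v p) (v l))
    (hatt' : ∃ p ∈ Pt, F.b (v p) (v l) ≠ 0)
    (hkl : F.b (v k) (v l) ≠ 0) :
    ¬ Coh F F' v w (insert k (Pt ∪ Q)) := by
  classical
  rintro ⟨κ, hκ, hκc⟩
  -- normalise
  obtain ⟨κ, hκ, hκc, hκθ⟩ : ∃ κ : K → G, IsLift w κ ∧
      (∀ s ∈ insert k (Pt ∪ Q), ∀ t ∈ insert k (Pt ∪ Q), F.b (v s) (v t) = F'.b (κ s) (κ t)) ∧
      ∀ p ∈ Pt, κ p = θ p := by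
    have i1 : ∀ s ∈ Pt, s ∈ insert k (Pt ∪ Q) := fun s hs =>
      Finset.mem_insert_of_mem (Finset.mem_union_left _ hs)
    have i2 : ∀ s ∈ Pt, s ∈ Pt ∪ Q := fun s hs => Finset.mem_union_left _ hs
    rcases hconn κ θ hκ hθ (fun s hs t ht => hκc s (i1 s hs) t (i1 t ht))
      (fun s hs t ht => hcoh s (i2 s hs) t (i2 t ht)) with h | h
    · exact ⟨κ, hκ, hκc, h⟩
    · refine ⟨fun c => -κ c, hκ.neg, fun s hs t ht => ?_, fun p hp => ?_⟩
      · change _ = F'.b (-κ s) (-κ t)
        rw [F'.neg_left, F'.neg_right, neg_neg]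
        exact hκc s hs t ht
      · change -κ p = θ p
        rw [h p hp, neg_neg]
  have iP : ∀ s ∈ Pt, s ∈ insert k (Pt ∪ Q) := fun s hs =>
    Finset.mem_insert_of_mem (Finset.mem_union_left _ hs)
  have iQ : ∀ s ∈ Q, s ∈ insert k (Pt ∪ Q) := fun s hs =>
    Finset.mem_insert_of_mem (Finset.mem_union_right _ hs)
  have ik : k ∈ insert k (Pt ∪ Q) := Finset.mem_insert_self _ _
  -- κ k = β
  have hκβ : κ k = β := by
    have hpm : κ k = β ∨ κ k = -β := by
      rcases hκ k with h | h <;> rcases hβ with h' | h' <;> rw [h, h'] <;> simp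
    rcases hpm with h | h
    · exact h
    · exfalso
      obtain ⟨p, hp, hne⟩ := hatt
      have h1 := hκc p (iP p hp) k ik
      rw [h, hκθ p hp, F'.neg_right, ← hβP p hp] at h1
      apply hne
      linarith
  -- split
  set m1 : K → ℤ := fun c => if κ c = θ c then n c else 0 with hm1
  set m2 : K → ℤ := fun c => if κ c = θ c then 0 else n c with hm2
  have hm1' : ∀ c, m1 c ≠ 0 → κ c = θ c ∧ n c ≠ 0 := by
    intro c hc
    by_cases h : κ c = θ c
    · refine ⟨h, ?_⟩
      simpa [hm1, h] using hc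
    · simp [hm1, h] at hc
  have hm2' : ∀ c, m2 c ≠ 0 → κ c = -θ c ∧ n c ≠ 0 := by
    intro c hc
    by_cases h : κ c = θ c
    · simp [hm2, h] at hc
    · refine ⟨?_, ?_⟩
      · exact (hκ.pm hθ c).resolve_left h
      · simpa [hm2, h] using hc
  have hsplit : comb v n = comb v m1 + comb v m2 := comb_split v _ n
  -- orthogonality relations
  have q1 : F.b (v k) (comb v m1) = 0 := by
    apply b_comb_right_zero
    intro d hd
    obtain ⟨h1, h2⟩ := hm1' d hd
    have hdQ := hn d h2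
    have h3 := hκc k ik d (iQ d hdQ)
    rw [hκβ, h1] at h3
    have h4 := hβQ d hdQ
    linarith
  have q2 : F.b (comb v m1) (comb v m2) = 0 := by
    apply b_comb_zero
    intro c d hc hd
    obtain ⟨h1, h2⟩ := hm1' c hc
    obtain ⟨h3, h4⟩ := hm2' d hd
    have hcQ := hn c h2
    have hdQ := hn d h4
    have h5 := hκc c (iQ c hcQ) d (iQ d hdQ)
    have h6 := hcoh c (Finset.mem_union_right _ hcQ) d (Finset.mem_union_right _ hdQ)
    rw [h1, h3, F'.neg_right] at h5
    linarith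
  have q3 : ∀ p ∈ Pt, F.b (v p) (comb v m2) = 0 := by
    intro p hp
    apply b_comb_right_zero
    intro d hd
    obtain ⟨h3, h4⟩ := hm2' d hd
    have hdQ := hn d h4
    have h5 := hκc p (iP p hp) d (iQ d hdQ)
    have h6 := hcoh p (Finset.mem_union_left _ hp) d (Finset.mem_union_right _ hdQ)
    rw [hκθ p hp, h3, F'.neg_right] at h5
    linarith
  have q4 : F.b (comb v m1) (comb v n') = 0 := by
    apply b_comb_zero
    intro c d hc hd
    exact horth c d (hm1' c hc).2 hd
  have q5 : F.b (comb v m1) (v l) = F.nm (comb v m1) := by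
    have h1 : F.b (comb v m1) (v k + v l) = F.b (comb v m1) (comb v m1 + comb v m2 + comb v n') := by
      rw [hsum, hsplit]
    rw [F.add_right, F.add_right, F.add_right, F.comm _ (v k), q1, q2, q4] at h1
    unfold Form.nm
    linarith
  rw [F.comm] at q5
  rcases facet_eq F π P.mod hfac q5 with h | h
  · obtain ⟨p, hp, hne⟩ := hatt'
    apply hne
    rw [← hl p hp, hsplit, h, zero_add, q3 p hp]
  · rw [h] at q1
    exact hkl q1

end Pool.H11.CS
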