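import Mathlib
import Pool.Agent.H11.CS.Cyc

/-!
# All facet classes are coherent
-/

set_option autoImplicit false
set_option linter.unusedSectionVars false

open Pool.H48.Vonorm

namespace Pool.H11.CS

variable {G K : Type*} [AddCommGroup G] [AddCommGroup K] [Fintype K] [DecidableEq K]
variable {π : G →+ K} {F F' : Form G} {v w : K → G}

lemma b_zero_of_pair {s t : K} (h : |F.b (v s) (v t)| = |F'.b (w s) (w t)|)
    (h0 : F.b (v s) (v t) = 0) {x y : G} (hx : x = w s ∨ x = -w s) (hy : y = w t ∨ y = -w t) :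
    F'.b x y = 0 := by
  rw [h0, abs_zero] at h
  have h1 : F'.b (w s) (w t) = 0 := abs_eq_zero.mp h.symm
  rcases hx with h2 | h2 <;> rcases hy with h3 | h3 <;>
    simp [h2, h3, F'.neg_left, F'.neg_right, h1]

lemma abs_lift {a : K → G} (ha : IsLift w a) (F' : Form G) (s : K) (y : G) :
    |F'.b (a s) y| = |F'.b (w s) y| := by
  rcases ha s with h | h
  · rw [h]
  · rw [h, F'.neg_left, abs_neg]

/-- every member of a minimal incoherent set is joined to at least two others -/
lemma attach (P : Twin π F F' v w) {S : Finset K} (hS : ¬ Coh F F' v w S) {i j : K}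
    (hi : i ∈ S) (hj : j ∈ S) (hc : Coh F F' v w (S.erase i))
    (hpairs : ∀ s ∈ S, ∀ t ∈ S, |F.b (v s) (v t)| = |F'.b (w s) (w t)|) :
    ∃ p ∈ (S.erase i).erase j, F.b (v p) (v i) ≠ 0 := by
  by_contra hcon
  push Not at hcon
  apply hS
  obtain ⟨a, ha, hac⟩ := hc
  have h1 : |F.b (v j) (v i)| = |F'.b (a j) (w i)| := by
    rw [hpairs j hj i hi, abs_lift ha]
  obtain ⟨z, hz, hz'⟩ := sign_of_abs F' h1
  rw [← Finset.insert_erase hi]
  refine coh_insert P ha hac z hz ?_ (Finset.notMem_erase i S)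
  intro s hs
  by_cases hsj : s = j
  · rw [hsj]; exact hz'
  · have h0 := hcon s (Finset.mem_erase.mpr ⟨hsj, hs⟩)
    rw [h0]
    exact (b_zero_of_pair (hpairs s (Finset.mem_of_mem_erase hs) i hi) h0 (ha s) hz).symm

/-- two coherent sign systems on the rest agree up to a global sign -/
lemma conn {S : Finset K} (hS : ¬ Coh F F' v w S) {i j : K}
    (hi : i ∈ S) (hj : j ∈ S) (hneg : F.b (v i) (v j) ≠ 0)
    (hproper : ∀ T ⊆ S, T ≠ S → Coh F F' v w T)
    (hpairs : ∀ s ∈ S, ∀ t ∈ S, |F.b (v s) (v t)| = |F'.b (w s) (w t)|)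
    (a b : K → G) (ha : IsLift w a) (hb : IsLift w b)
    (hac : ∀ s ∈ (S.erase i).erase j, ∀ t ∈ (S.erase i).erase j,
      F.b (v s) (v t) = F'.b (a s) (a t))
    (hbc : ∀ s ∈ (S.erase i).erase j, ∀ t ∈ (S.erase i).erase j,
      F.b (v s) (v t) = F'.b (b s) (b t)) :
    (∀ p ∈ (S.erase i).erase j, a p = b p) ∨ (∀ p ∈ (S.erase i).erase j, a p = -b p) := by
  classical
  by_contra hcon
  rw [not_or] at hcon
  obtain ⟨hc1, hc2⟩ := hcon
  push Not at hc1 hc2
  obtain ⟨p, hp, hpne⟩ := hc1
  obtain ⟨q, hq, hqne⟩ := hc2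
  set R := (S.erase i).erase j with hR
  have memR : ∀ s, s ∈ R ↔ s ≠ j ∧ s ≠ i ∧ s ∈ S := by
    intro s; rw [hR, Finset.mem_erase, Finset.mem_erase]
  set S1 := insert i (insert j (R.filter fun s => a s = b s)) with hS1
  set S2 := insert i (insert j (R.filter fun s => ¬ a s = b s)) with hS2
  have hp' := (memR p).mp hp
  have hq' := (memR q).mp hq
  have sub1 : S1 ⊆ S := by
    intro s hs
    rw [hS1, Finset.mem_insert, Finset.mem_insert, Finset.mem_filter] at hs
    rcases hs with h | h | ⟨h, _⟩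
    · rw [h]; exact hi
    · rw [h]; exact hj
    · exact ((memR s).mp h).2.2
  have sub2 : S2 ⊆ S := by
    intro s hs
    rw [hS2, Finset.mem_insert, Finset.mem_insert, Finset.mem_filter] at hs
    rcases hs with h | h | ⟨h, _⟩
    · rw [h]; exact hi
    · rw [h]; exact hj
    · exact ((memR s).mp h).2.2
  have p1 : p ∉ S1 := by
    rw [hS1, Finset.mem_insert, Finset.mem_insert, Finset.mem_filter]
    rintro (h | h | ⟨_, h⟩)
    · exact hp'.2.1 h
    · exact hp'.1 h
    · exact hpne h
  have hqab : a q = b q := (ha.pm hb q).resolve_right hqne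
  have q2 : q ∉ S2 := by
    rw [hS2, Finset.mem_insert, Finset.mem_insert, Finset.mem_filter]
    rintro (h | h | ⟨_, h⟩)
    · exact hq'.2.1 h
    · exact hq'.1 h
    · exact h hqab
  obtain ⟨η, hη, hηc⟩ := hproper S1 sub1 (fun h => p1 (h ▸ hp'.2.2))
  obtain ⟨η', hη', hηc'⟩ := hproper S2 sub2 (fun h => q2 (h ▸ hq'.2.2))
  have i1 : i ∈ S1 := by rw [hS1]; exact Finset.mem_insert_self _ _
  have j1 : j ∈ S1 := by rw [hS1]; exact Finset.mem_insert_of_mem (Finset.mem_insert_self _ _)
  have i2 : i ∈ S2 := by rw [hS2]; exact Finset.mem_insert_self _ _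
  have j2 : j ∈ S2 := by rw [hS2]; exact Finset.mem_insert_of_mem (Finset.mem_insert_self _ _)
  -- normalise η'
  obtain ⟨η', hη', hηc', hii⟩ : ∃ η' : K → G, IsLift w η' ∧
      (∀ s ∈ S2, ∀ t ∈ S2, F.b (v s) (v t) = F'.b (η' s) (η' t)) ∧ η' i = η i := by
    rcases hη'.pm hη i with h | h
    · exact ⟨η', hη', hηc', h⟩
    · refine ⟨fun c => -η' c, hη'.neg, fun s hs t ht => ?_, ?_⟩
      · change _ = F'.b (-η' s) (-η' t)
        rw [F'.neg_left, F'.neg_right, neg_neg]
        exact hηc' s hs t ht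
      · change -η' i = η i
        rw [h, neg_neg]
  have hjj : η' j = η j := by
    rcases hη'.pm hη j with h | h
    · exact h
    · exfalso
      have h1 := hηc i i1 j j1
      have h2 := hηc' i i2 j j2
      rw [hii, h, F'.neg_right] at h2
      apply hneg
      linarith
  apply hS
  have key : ∀ s ∈ S1, ∀ t ∈ S, t ∉ S1 → F.b (v s) (v t) = F'.b (η s) (η' t) := by
    intro s hs t ht htn
    have htR : t ∈ R := (memR t).mpr
      ⟨fun h => htn (h ▸ j1), fun h => htn (h ▸ i1), ht⟩
    have htab : ¬ a t = b t := by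
      intro h
      apply htn
      rw [hS1]
      exact Finset.mem_insert_of_mem (Finset.mem_insert_of_mem (Finset.mem_filter.mpr ⟨htR, h⟩))
    have ht2 : t ∈ S2 := by
      rw [hS2]
      exact Finset.mem_insert_of_mem
        (Finset.mem_insert_of_mem (Finset.mem_filter.mpr ⟨htR, htab⟩))
    have hs' := hs
    rw [hS1, Finset.mem_insert, Finset.mem_insert, Finset.mem_filter] at hs'
    rcases hs' with h | h | ⟨h, h'⟩
    · rw [h, ← hii]; exact hηc' i i2 t ht2
    · rw [h, ← hjj]; exact hηc' j j2 t ht2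
    · have hbt : a t = -b t := (ha.pm hb t).resolve_left htab
      have e1 := hac s h t htR
      have e2 := hbc s h t htR
      rw [h', hbt, F'.neg_right] at e1
      have e3 : F.b (v s) (v t) = 0 := by linarith
      rw [e3]
      exact (b_zero_of_pair (hpairs s (sub1 hs) t ht) e3 (hη s) (hη' t)).symm
  refine ⟨fun c => if c ∈ S1 then η c else η' c, ?_, ?_⟩
  · intro c
    by_cases h : c ∈ S1
    · simp only [h, if_true]; exact hη c
    · simp only [h, if_false]; exact hη' c
  · intro s hs t ht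
    by_cases h1 : s ∈ S1 <;> by_cases h2 : t ∈ S1
    · simp only [h1, h2, if_true]; exact hηc s h1 t h2
    · simp only [h1, h2, if_true, if_false]; exact key s h1 t ht h2
    · simp only [h1, h2, if_true, if_false]
      rw [F.comm, F'.comm]
      exact key t h2 s hs h1
    · simp only [h1, h2, if_false]
      have memS2 : ∀ u ∈ S, u ∉ S1 → u ∈ S2 := by
        intro u hu hun
        have huR : u ∈ R := (memR u).mpr
          ⟨fun h => hun (h ▸ j1), fun h => hun (h ▸ i1), hu⟩
        have huab : ¬ a u = b u := by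
          intro h
          apply hun
          rw [hS1]
          exact Finset.mem_insert_of_mem
            (Finset.mem_insert_of_mem (Finset.mem_filter.mpr ⟨huR, h⟩))
        rw [hS2]
        exact Finset.mem_insert_of_mem
          (Finset.mem_insert_of_mem (Finset.mem_filter.mpr ⟨huR, huab⟩))
      exact hηc' s (memS2 s hs h1) t (memS2 t ht h2)

/-- normalising a coherent lift on a set containing the rest -/
lemma normalise {R T : Finset K} (hRT : R ⊆ T) {θ : K → G} (hθ : IsLift w θ)
    (hθc : ∀ s ∈ R, ∀ t ∈ R, F.b (v s) (v t) = F'.b (θ s) (θ t))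
    (hconn : ∀ a b : K → G, IsLift w a → IsLift w b →
      (∀ s ∈ R, ∀ t ∈ R, F.b (v s) (v t) = F'.b (a s) (a t)) →
      (∀ s ∈ R, ∀ t ∈ R, F.b (v s) (v t) = F'.b (b s) (b t)) →
      (∀ p ∈ R, a p = b p) ∨ (∀ p ∈ R, a p = -b p))
    (hT : Coh F F' v w T) :
    ∃ κ : K → G, IsLift w κ ∧ (∀ s ∈ T, ∀ t ∈ T, F.b (v s) (v t) = F'.b (κ s) (κ t)) ∧
      ∀ p ∈ R, κ p = θ p := by
  obtain ⟨κ, hκ, hκc⟩ := hT
  rcases hconn κ θ hκ hθ (fun s hs t ht => hκc s (hRT hs) t (hRT ht)) hθc with h | h
  · exact ⟨κ, hκ, hκc, h⟩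
  · refine ⟨fun c => -κ c, hκ.neg, fun s hs t ht => ?_, fun p hp => ?_⟩
    · change _ = F'.b (-κ s) (-κ t)
      rw [F'.neg_left, F'.neg_right, neg_neg]
      exact hκc s hs t ht
    · change -κ p = θ p
      rw [h p hp, neg_neg]

lemma comb_congr_on {a b : K → G} {n : K → ℤ} (h : ∀ c, n c ≠ 0 → a c = b c) :
    comb a n = comb b n := by
  unfold comb
  refine Finset.sum_congr rfl fun c _ => ?_
  by_cases hc : n c = 0
  · rw [hc]; simp
  · rw [h c hc]

lemma comb_congr_neg {a b : K → G} {n : K → ℤ} (h : ∀ c, n c ≠ 0 → a c = -b c) :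
    comb a n = -comb b n := by
  unfold comb
  rw [← Finset.sum_neg_distrib]
  refine Finset.sum_congr rfl fun c _ => ?_
  by_cases hc : n c = 0
  · rw [hc]; simp
  · rw [h c hc, smul_neg]

/-- The main clash, with a normalised sign. -/
lemma clash_neg (P : Twin π F F' v w) {S : Finset K} (hSf : ∀ s ∈ S, Facet π F v s)
    (hS : ¬ Coh F F' v w S)
    (hmin : ∀ T : Finset K, (∀ s ∈ T, Facet π F v s) → W F v T < W F v S → Coh F F' v w T)
    (hpairs : ∀ s ∈ S, ∀ t ∈ S, |F.b (v s) (v t)| = |F'.b (w s) (w t)|)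
    (hproper : ∀ T ⊆ S, T ≠ S → Coh F F' v w T)
    {i j m : K} (hi : i ∈ S) (hj : j ∈ S) (hm : m ∈ S) (hij : i ≠ j) (hmi : m ≠ i)
    (hmj : m ≠ j) (hjm : F.nm (v j) ≤ F.nm (v m)) (hneg : F.b (v i) (v j) < 0) : False := by
  classical
  have hπ := P.mod
  set R := (S.erase i).erase j with hR
  have memR : ∀ s, s ∈ R ↔ s ≠ j ∧ s ≠ i ∧ s ∈ S := by
    intro s; rw [hR, Finset.mem_erase, Finset.mem_erase]
  have hji : F.b (v j) (v i) < 0 := by rw [F.comm]; exact hneg
  have hjS : j ∈ S.erase i := Finset.mem_erase.mpr ⟨hij.symm, hj⟩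
  have hiS : i ∈ S.erase j := Finset.mem_erase.mpr ⟨hij, hi⟩
  have hRf : ∀ s ∈ R, Facet π F v s := fun s hs => hSf s ((memR s).mp hs).2.2
  -- weights
  have wS : W F v S = F.nm (v i) + F.nm (v j) + W F v R := by
    have e1 : W F v S = F.nm (v i) + W F v (S.erase i) := by
      unfold W
      rw [Finset.add_sum_erase S (fun c => F.nm (v c)) hi]
    have e2 : W F v (S.erase i) = F.nm (v j) + W F v R := by
      unfold W
      rw [hR, Finset.add_sum_erase (S.erase i) (fun c => F.nm (v c)) hjS]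
    rw [e1, e2]; ring
  have hmR : m ∈ R := (memR m).mpr ⟨hmj, hmi, hm⟩
  have wm : F.nm (v m) ≤ W F v R :=
    Finset.single_le_sum (f := fun c => F.nm (v c)) (fun c _ => nm_nonneg F _) hmR
  -- connectivity and attachments
  have hconn := conn hS hi hj hneg.ne hproper hpairs
  have hci : Coh F F' v w (S.erase i) :=
    hproper _ (Finset.erase_subset _ _) fun h => (Finset.notMem_erase i S) (by rw [h]; exact hi)
  have hcj : Coh F F' v w (S.erase j) :=
    hproper _ (Finset.erase_subset _ _) fun h => (Finset.notMem_erase j S) (by rw [h]; exact hj)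
  have hatti : ∃ p ∈ R, F.b (v p) (v i) ≠ 0 := attach P hS hi hj hci hpairs
  have hattj : ∃ p ∈ R, F.b (v p) (v j) ≠ 0 := by
    obtain ⟨p, hp, h⟩ := attach P hS hj hi hcj hpairs
    refine ⟨p, ?_, h⟩
    rw [hR, Finset.erase_right_comm]; exact hp
  -- decomposition
  obtain ⟨n, Q, hQf, hnQ, hx, hQw⟩ := exists_decomp hπ P.sv (v i + v j)
  change W F v Q ≤ _ at hQw
  rw [F.nm_add] at hQw
  -- θ
  have cohPQ : Coh F F' v w (R ∪ Q) := by
    apply hmin
    · intro s hs
      rcases Finset.mem_union.mp hs with h | h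
      · exact hRf s h
      · exact hQf s h
    · have := W_union F v R Q
      linarith
  obtain ⟨θ, hθ, hθc⟩ := cohPQ
  have hθR : ∀ s ∈ R, ∀ t ∈ R, F.b (v s) (v t) = F'.b (θ s) (θ t) := fun s hs t ht =>
    hθc s (Finset.mem_union_left _ hs) t (Finset.mem_union_left _ ht)
  -- α, β
  have RsubI : R ⊆ S.erase j := by
    rw [hR, Finset.erase_right_comm]; exact Finset.erase_subset _ _
  have RsubJ : R ⊆ S.erase i := Finset.erase_subset _ _
  obtain ⟨α, hα, hαc, hαθ⟩ := normalise RsubI hθ hθR hconn hcj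
  obtain ⟨β, hβ, hβc, hβθ⟩ := normalise RsubJ hθ hθR hconn hci
  -- φ
  have cohQ : Coh F F' v w (insert j Q) := by
    apply hmin
    · intro s hs
      rcases Finset.mem_insert.mp hs with h | h
      · rw [h]; exact hSf j hj
      · exact hQf s h
    · have := W_insert F v j Q
      linarith
  obtain ⟨φ, hφ, hφc, hφj⟩ : ∃ φ : K → G, IsLift w φ ∧
      (∀ s ∈ insert j Q, ∀ t ∈ insert j Q, F.b (v s) (v t) = F'.b (φ s) (φ t)) ∧ φ j = β j := by
    obtain ⟨φ, hφ, hφc⟩ := cohQ
    rcases hφ.pm hβ j with h | h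
    · exact ⟨φ, hφ, hφc, h⟩
    · refine ⟨fun c => -φ c, hφ.neg, fun s hs t ht => ?_, ?_⟩
      · change _ = F'.b (-φ s) (-φ t)
        rw [F'.neg_left, F'.neg_right, neg_neg]
        exact hφc s hs t ht
      · change -φ j = β j
        rw [h, neg_neg]
  have jQ : j ∈ insert j Q := Finset.mem_insert_self _ _
  -- C1
  set n1 : K → ℤ := n - Pi.single j 1 with hn1
  have hn1Q : ∀ c, c ∉ insert j Q → n1 c = 0 := by
    intro c hc
    rw [Finset.mem_insert, not_or] at hc
    rw [hn1, Pi.sub_apply, hnQ c hc.2, Pi.single_eq_of_ne hc.1, sub_zero]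
  have hvi : v i = comb v n1 := by
    rw [hn1, comb_sub, ← hx, comb_single, one_smul]; abel
  set C1 := comb φ n1 with hC1
  have hC1n : F'.nm C1 = F.nm (v i) := by
    unfold Form.nm
    rw [hvi]
    exact (coh_b hφc hn1Q hn1Q).symm
  have hφcls := hφ.cls hπ P.sw.cls
  have hC1π : π C1 = i := by
    rw [hC1, cls_comb hφcls P.sv.cls, ← hvi, P.sv.cls]
  have hC1w : C1 = w i ∨ C1 = -w i := by
    apply ((P.facet i).mp (hSf i hi)).2 C1 hC1π
    rw [hC1n, P.nm]
  have hC1q : ∀ q ∈ insert j Q, F.b (v q) (v i) = F'.b (φ q) C1 := by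
    intro q hq
    rw [hC1]
    conv_lhs => rw [hvi]
    exact coh_b_right (fun t ht => hφc q hq t ht) hn1Q
  -- α i = - C1
  have hαi : α i = -C1 := by
    have hpm : α i = C1 ∨ α i = -C1 := by
      rcases hα i with h | h <;> rcases hC1w with h' | h' <;> rw [h, h'] <;> simp
    rcases hpm with h | h
    · exfalso
      apply hS
      rw [← Finset.insert_erase hi]
      refine coh_insert P hβ hβc (α i) (hα i) ?_ (Finset.notMem_erase i S)
      intro s hs
      by_cases hsj : s = j
      · rw [hsj, h, ← hφj]; exact hC1q j jQ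
      · have hsR : s ∈ R := Finset.mem_erase.mpr ⟨hsj, hs⟩
        rw [hβθ s hsR, ← hαθ s hsR]
        exact hαc s (RsubI hsR) i hiS
    · exact h
  -- splitting of Q
  set Qp := Q.filter fun c => θ c = φ c with hQp
  set Qm := Q.filter fun c => ¬ θ c = φ c with hQm
  set np : K → ℤ := fun c => if θ c = φ c then n c else 0 with hnp
  set nn : K → ℤ := fun c => if θ c = φ c then 0 else n c with hnn
  have hnp' : ∀ c, np c ≠ 0 → θ c = φ c ∧ c ∈ Q := by
    intro c hc
    by_cases h : θ c = φ c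
    · refine ⟨h, ?_⟩
      by_contra hcQ
      apply hc
      simp [hnp, hnQ c hcQ]
    · simp [hnp, h] at hc
  have hnn' : ∀ c, nn c ≠ 0 → (¬ θ c = φ c) ∧ θ c = -φ c ∧ c ∈ Q := by
    intro c hc
    by_cases h : θ c = φ c
    · simp [hnn, h] at hc
    · refine ⟨h, (hθ.pm hφ c).resolve_left h, ?_⟩
      by_contra hcQ
      apply hc
      simp [hnn, hnQ c hcQ]
  have hsplit : ∀ a : K → G, comb a n = comb a np + comb a nn := fun a => comb_split a _ n
  have iQ : ∀ c ∈ Q, c ∈ insert j Q := fun c hc => Finset.mem_insert_of_mem hc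
  have uQ : ∀ c ∈ Q, c ∈ R ∪ Q := fun c hc => Finset.mem_union_right _ hc
  have uR : ∀ c ∈ R, c ∈ R ∪ Q := fun c hc => Finset.mem_union_left _ hc
  have horth : ∀ c d, np c ≠ 0 → nn d ≠ 0 → F.b (v c) (v d) = 0 := by
    intro c d hc hd
    obtain ⟨h1, h2⟩ := hnp' c hc
    obtain ⟨_, h3, h4⟩ := hnn' d hd
    have e1 := hθc c (uQ c h2) d (uQ d h4)
    have e2 := hφc c (iQ c h2) d (iQ d h4)
    rw [h1, h3, F'.neg_right] at e1
    linarith
  have eθp : comb θ np = comb φ np := comb_congr_on fun c hc => (hnp' c hc).1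
  have eθn : comb θ nn = -comb φ nn := comb_congr_neg fun c hc => (hnn' c hc).2.1
  have supp_p : ∀ c, c ∉ R ∪ Q → np c = 0 := by
    intro c hc
    by_contra h
    exact hc (uQ c (hnp' c h).2)
  have supp_n : ∀ c, c ∉ R ∪ Q → nn c = 0 := by
    intro c hc
    by_contra h
    exact hc (uQ c (hnn' c h).2.2)
  have hφn : comb φ n = C1 + φ j := by
    rw [hC1, hn1, comb_sub, comb_single, one_smul]; abel
  have hPQ : ∀ p ∈ R, F.b (v p) (comb v np) = F.b (v p) (v j) ∧
      F.b (v p) (comb v nn) = F.b (v p) (v i) := by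
    intro p hp
    have e1 : F.b (v p) (comb v np) = F'.b (θ p) (comb φ np) := by
      rw [← eθp]
      exact coh_b_right (fun t ht => hθc p (uR p hp) t ht) supp_p
    have e2 : F.b (v p) (comb v nn) = -F'.b (θ p) (comb φ nn) := by
      rw [← F'.neg_right, ← eθn]
      exact coh_b_right (fun t ht => hθc p (uR p hp) t ht) supp_n
    have e3 : F.b (v p) (v i) = -F'.b (θ p) C1 := by
      rw [← F'.neg_right, ← hαi, ← hαθ p hp]
      exact hαc p (RsubI hp) i hiS
    have e4 : F.b (v p) (v j) = F'.b (θ p) (φ j) := by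
      rw [hφj, ← hβθ p hp]
      exact hβc p (RsubJ hp) j hjS
    have e5 : F'.b (θ p) (comb φ np) + F'.b (θ p) (comb φ nn) =
        F'.b (θ p) C1 + F'.b (θ p) (φ j) := by
      rw [← F'.add_right, ← F'.add_right, ← hsplit φ, hφn]
    have e6 : F.b (v p) (comb v np) + F.b (v p) (comb v nn) =
        F.b (v p) (v i) + F.b (v p) (v j) := by
      rw [← F.add_right, ← F.add_right, ← hsplit v, hx]
    constructor <;> linarith
  -- the two incoherent sets
  have hconnR := hconn
  have inc1 : ¬ Coh F F' v w (insert j (R ∪ Qm)) := by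
    have subQ : R ∪ Qm ⊆ R ∪ Q := Finset.union_subset_union_right (Finset.filter_subset _ _)
    refine incoh P (l := i) (n := nn) (n' := np) hθ
      (fun s hs t ht => hθc s (subQ hs) t (subQ ht)) hconnR (β := β j) (hβ j) ?_ hattj ?_ ?_ ?_ ?_
      ?_ ?_ hatti hji.ne
    · intro p hp
      rw [← hβθ p hp]
      exact hβc p (RsubJ hp) j hjS
    · intro c hc
      obtain ⟨h1, h2⟩ := Finset.mem_filter.mp hc
      have h3 : θ c = -φ c := (hθ.pm hφ c).resolve_left h2
      rw [h3, F'.neg_right, neg_neg, ← hφj]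
      exact hφc j jQ c (iQ c h1)
    · intro c hc
      obtain ⟨h1, _, h3⟩ := hnn' c hc
      exact Finset.mem_filter.mpr ⟨h3, h1⟩
    · rw [add_comm (v j), hx, hsplit v, add_comm]
    · intro c d hc hd
      rw [F.comm]
      exact horth d c hd hc
    · intro y h1 h2
      exact (hSf i hi).2 y (by rw [h1, P.sv.cls]) h2
    · intro p hp
      exact (hPQ p hp).2
  have inc2 : ¬ Coh F F' v w (insert i (R ∪ Qp)) := by
    have subQ : R ∪ Qp ⊆ R ∪ Q := Finset.union_subset_union_right (Finset.filter_subset _ _)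
    refine incoh P (l := j) (n := np) (n' := nn) hθ
      (fun s hs t ht => hθc s (subQ hs) t (subQ ht)) hconnR (β := α i) (hα i) ?_ hatti ?_ ?_ ?_ ?_
      ?_ ?_ hattj hneg.ne
    · intro p hp
      rw [← hαθ p hp]
      exact hαc p (RsubI hp) i hiS
    · intro c hc
      obtain ⟨h1, h2⟩ := Finset.mem_filter.mp hc
      rw [hαi, h2, F'.neg_left, neg_neg, F.comm, F'.comm]
      exact hC1q c (iQ c h1)
    · intro c hc
      obtain ⟨h1, h3⟩ := hnp' c hc
      exact Finset.mem_filter.mpr ⟨h3, h1⟩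
    · rw [hx, hsplit v]
    · intro c d hc hd
      exact horth c d hc hd
    · intro y h1 h2
      exact (hSf j hj).2 y (by rw [h1, P.sv.cls]) h2
    · intro p hp
      exact (hPQ p hp).1
  -- weights
  have w1 : W F v S ≤ W F v (insert j (R ∪ Qm)) := by
    by_contra hlt
    push Not at hlt
    refine inc1 (hmin _ ?_ hlt)
    intro s hs
    rcases Finset.mem_insert.mp hs with h | h
    · rw [h]; exact hSf j hj
    · rcases Finset.mem_union.mp h with h | h
      · exact hRf s h
      · exact hQf s (Finset.mem_filter.mp h).1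
  have w2 : W F v S ≤ W F v (insert i (R ∪ Qp)) := by
    by_contra hlt
    push Not at hlt
    refine inc2 (hmin _ ?_ hlt)
    intro s hs
    rcases Finset.mem_insert.mp hs with h | h
    · rw [h]; exact hSf i hi
    · rcases Finset.mem_union.mp h with h | h
      · exact hRf s h
      · exact hQf s (Finset.mem_filter.mp h).1
  have w3 := W_insert F v j (R ∪ Qm)
  have w4 := W_union F v R Qm
  have w5 := W_insert F v i (R ∪ Qp)
  have w6 := W_union F v R Qp
  have w7 : W F v Qp + W F v Qm = W F v Q :=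
    Finset.sum_filter_add_sum_filter_not Q (fun c => θ c = φ c) (fun c => F.nm (v c))
  linarith

/-- change of signs of `v` -/
lemma Twin.lift (P : Twin π F F' v w) {v' : K → G} (h : IsLift v v') : Twin π F F' v' w where
  mod := P.mod
  sv := by
    refine ⟨h.cls P.mod P.sv.cls, fun c x hx => ?_⟩
    rw [h.nm]
    exact P.sv.min c x hx
  sw := P.sw
  nm := fun c => by rw [h.nm]; exact P.nm c

lemma IsLift.facet {v' : K → G} (h : IsLift v v') (c : K) : Facet π F v' c ↔ Facet π F v c := by
  unfold Facet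
  rw [h.nm]
  constructor
  · rintro ⟨h0, h1⟩
    refine ⟨h0, fun x hx hx' => ?_⟩
    rcases h1 x hx hx' with h2 | h2 <;> rcases h c with h3 | h3 <;> rw [h2, h3] <;> simp
  · rintro ⟨h0, h1⟩
    refine ⟨h0, fun x hx hx' => ?_⟩
    rcases h1 x hx hx' with h2 | h2 <;> rcases h c with h3 | h3 <;> rw [h2, h3] <;> simp

lemma IsLift.W {v' : K → G} (h : IsLift v v') (S : Finset K) : W F v' S = W F v S :=
  Finset.sum_congr rfl fun c _ => h.nm F c

lemma IsLift.symm {v' : K → G} (h : IsLift v v') : IsLift v' v := fun c => by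
  rcases h c with h | h
  · left; rw [h]
  · right; rw [h, neg_neg]

lemma IsLift.trans {v' v'' : K → G} (h : IsLift v v') (h' : IsLift v' v'') : IsLift v v'' :=
  fun c => by
  rcases h c with h1 | h1 <;> rcases h' c with h2 | h2 <;> rw [h2, h1] <;> simp

lemma IsLift.coh {v' : K → G} (h : IsLift v v') (S : Finset K) :
    Coh F F' v' w S ↔ Coh F F' v w S := by
  constructor
  · intro hc
    obtain ⟨a, ha, hac⟩ := hc.symm
    exact Coh.symm ⟨a, h.trans ha, hac⟩
  · intro hc
    obtain ⟨a, ha, hac⟩ := hc.symm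
    exact Coh.symm ⟨a, h.symm.trans ha, hac⟩

lemma IsLift.abs {v' : K → G} (h : IsLift v v') (s t : K) :
    |F.b (v' s) (v' t)| = |F.b (v s) (v t)| := by
  rw [abs_lift h, F.comm, abs_lift h, F.comm]

/-- A minimal incoherent set contains a bad pair. -/
lemma clash (P : Twin π F F' v w) {S : Finset K} (hSf : ∀ s ∈ S, Facet π F v s)
    (hS : ¬ Coh F F' v w S)
    (hmin : ∀ T : Finset K, (∀ s ∈ T, Facet π F v s) → W F v T < W F v S → Coh F F' v w T)
    (hpairs : ∀ s ∈ S, ∀ t ∈ S, |F.b (v s) (v t)| = |F'.b (w s) (w t)|) : False := by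
  classical
  have hproper : ∀ T ⊆ S, T ≠ S → Coh F F' v w T := by
    intro T hT hne
    apply hmin T (fun s hs => hSf s (hT hs))
    obtain ⟨i, hi, hi'⟩ : ∃ i ∈ S, i ∉ T := by
      by_contra hcon
      push Not at hcon
      exact hne (Finset.Subset.antisymm hT hcon)
    exact Finset.sum_lt_sum_of_subset hT hi hi' (P.sv.pos (hSf i hi).1)
      (fun j _ _ => nm_nonneg F _)
  have hne : S.Nonempty := by
    rw [Finset.nonempty_iff_ne_empty]
    rintro rfl
    exact hS ⟨w, IsLift.refl w, by simp⟩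
  obtain ⟨m, hm, hmax⟩ := Finset.exists_max_image S (fun c => F.nm (v c)) hne
  obtain ⟨i, hi, j, hj, hij, hne0⟩ : ∃ i ∈ S.erase m, ∃ j ∈ S.erase m, i ≠ j ∧
      F.b (v i) (v j) ≠ 0 := by
    by_contra hcon
    push Not at hcon
    apply hS
    have hz : ∀ s, ∃ z, (z = w s ∨ z = -w s) ∧ (s ∈ S → F.b (v m) (v s) = F'.b (w m) z) := by
      intro s
      by_cases hs : s ∈ S
      · obtain ⟨z, h1, h2⟩ := sign_of_abs F' (hpairs m hm s hs)
        exact ⟨z, h1, fun _ => h2⟩
      · exact ⟨w s, Or.inl rfl, fun h => absurd h hs⟩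
    choose z hz1 hz2 using hz
    refine ⟨Function.update z m (w m), ?_, ?_⟩
    · intro c
      by_cases hc : c = m
      · rw [hc, Function.update_self]; exact Or.inl rfl
      · rw [Function.update_of_ne hc]; exact hz1 c
    · intro s hs t ht
      by_cases h1 : s = m
      · by_cases h2 : t = m
        · rw [h1, h2, Function.update_self]
          exact P.nm m
        · rw [h1, Function.update_self, Function.update_of_ne h2]
          exact hz2 t ht
      · by_cases h2 : t = m
        · rw [h2, Function.update_self, Function.update_of_ne h1, F.comm, F'.comm]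
          exact hz2 s hs
        · rw [Function.update_of_ne h1, Function.update_of_ne h2]
          by_cases h3 : s = t
          · rw [h3]
            have h4 := P.nm t
            unfold Form.nm at h4
            rw [h4]
            rcases hz1 t with h | h
            · rw [h]
            · rw [h, F'.neg_left, F'.neg_right, neg_neg]
          · have h4 := hcon s (Finset.mem_erase.mpr ⟨h1, hs⟩) t
              (Finset.mem_erase.mpr ⟨h2, ht⟩) h3
            rw [h4]
            exact (b_zero_of_pair (hpairs s hs t ht) h4 (hz1 s) (hz1 t)).symm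
  obtain ⟨hmi, hiS⟩ := Finset.mem_erase.mp hi
  obtain ⟨hmj, hjS⟩ := Finset.mem_erase.mp hj
  rcases lt_or_gt_of_ne hne0 with hneg | hpos
  · exact clash_neg P hSf hS hmin hpairs hproper hiS hjS hm hij hmi.symm hmj.symm
      (hmax j hjS) hneg
  · set v' : K → G := Function.update v j (-v j) with hv'
    have hl : IsLift v v' := by
      intro c
      by_cases hc : c = j
      · right; rw [hc, hv', Function.update_self]
      · left; rw [hv', Function.update_of_ne hc]
    have e1 : v' i = v i := by rw [hv', Function.update_of_ne hij]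
    have e2 : v' j = -v j := by rw [hv', Function.update_self]
    refine clash_neg (P.lift hl) (fun s hs => (hl.facet s).mpr (hSf s hs))
      (fun h => hS ((hl.coh S).mp h)) ?_ ?_ ?_ hiS hjS hm hij hmi.symm hmj.symm ?_ ?_
    · intro T hT hW
      rw [hl.W, hl.W] at hW
      exact (hl.coh T).mpr (hmin T (fun s hs => (hl.facet s).mp (hT s hs)) hW)
    · intro s hs t ht
      rw [hl.abs]; exact hpairs s hs t ht
    · intro T hT hT'
      exact (hl.coh T).mpr (hproper T hT hT')
    · rw [hl.nm, hl.nm]; exact hmax j hjS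
    · rw [e1, e2, F.neg_right]; linarith

/-- The set of all facet classes is coherent. -/
theorem coh_all (P : Twin π F F' v w) (S : Finset K) (hS : ∀ s ∈ S, Facet π F v s) :
    Coh F F' v w S := by
  classical
  by_contra hcon
  obtain ⟨S, hSm, hmin⟩ := Finset.exists_min_image
    (Finset.univ.filter fun T : Finset K => (∀ s ∈ T, Facet π F v s) ∧ ¬ Coh F F' v w T)
    (fun T => W F v T) ⟨S, Finset.mem_filter.mpr ⟨Finset.mem_univ _, hS, hcon⟩⟩
  obtain ⟨_, hSf, hSc⟩ := Finset.mem_filter.mp hSm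
  have hmin' : ∀ T : Finset K, (∀ s ∈ T, Facet π F v s) → W F v T < W F v S →
      Coh F F' v w T := by
    intro T hT hW
    by_contra h
    exact absurd (hmin T (Finset.mem_filter.mpr ⟨Finset.mem_univ _, hT, h⟩)) (not_le.mpr hW)
  refine clash P hSf hSc hmin' ?_
  intro c hc d hd
  by_cases hcd : c = d
  · rw [hcd]
    have := P.nm d
    unfold Form.nm at this
    rw [this]
  · apply pair_eq P (hSf c hc) (hSf d hd)
    intro T hT hW
    apply hmin' T hT
    refine lt_of_lt_of_le hW ?_
    have h1 : W F v {c, d} = F.nm (v c) + F.nm (v d) := by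
      unfold W
      rw [Finset.sum_pair hcd]
    rw [← h1]
    apply W_mono
    intro x hx
    rw [Finset.mem_insert, Finset.mem_singleton] at hx
    rcases hx with h | h
    · rw [h]; exact hc
    · rw [h]; exact hd

end Pool.H11.CS
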