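import Mathlib
import Pool.Agent.H11.CS.Clash
import Pool.Agent.H48.Vonorm.Generic

/-!
# The Conway–Sloane vonorm conjecture
-/

set_option autoImplicit false
set_option linter.unusedSectionVars false

open Pool.H48.Vonorm Matrix

namespace Pool.H11.CS

lemma exists_sys {G K : Type*} [AddCommGroup G] [AddCommGroup K] (π : G →+ K)
    (hπ : Function.Surjective π) (F : Form G) : ∃ v : K → G, Sys π F v := by
  have h : ∀ c : K, ∃ x, π x = c ∧ ∀ y, π y = c → F.nm x ≤ F.nm y := by
    intro c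
    obtain ⟨x0, hx0⟩ := hπ c
    obtain ⟨x, hx, hmin⟩ := F.wf {x | π x = c} ⟨x0, hx0⟩
    exact ⟨x, hx, fun y hy => hmin y hy⟩
  choose v h1 h2 using h
  exact ⟨v, h1, h2⟩

variable {n : ℕ}

lemma mod2_red : Mod2 (red : (Fin n → ℤ) →+ (Fin n → ZMod 2)) where
  ker x hx := by
    have h : red (0 : Fin n → ℤ) = red x := by rw [hx, map_zero]
    obtain ⟨w, hw⟩ := (red_eq_iff _ _).mp h
    exact ⟨w, by rw [hw, zero_add]⟩
  two c := by
    ext i
    exact CharTwo.add_self_eq_zero (c i)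

lemma exists_twin (F F' : Form (Fin n → ℤ)) (H : Same F F') :
    ∃ v w : (Fin n → ZMod 2) → (Fin n → ℤ), Twin red F F' v w := by
  obtain ⟨v, hv⟩ := exists_sys red (fun c => red_surj c) F
  obtain ⟨w, hw⟩ := exists_sys red (fun c => red_surj c) F'
  refine ⟨v, w, mod2_red, hv, hw, fun c => ?_⟩
  apply H
  · rw [hv.cls, hw.cls]
  · intro u
    apply hv.min
    rw [map_add, map_add, mod2_red.two, add_zero, hv.cls]
  · intro u
    apply hw.min
    rw [map_add, map_add, mod2_red.two, add_zero, hw.cls]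

/-- Two positive definite forms with the same vonorms represent each other. -/
theorem rep_of_same (A B : Matrix (Fin n) (Fin n) ℝ) (hA : A.PosDef) (hB : B.PosDef)
    (H : Same (toForm A hA) (toForm B hB)) :
    ∃ U : Matrix (Fin n) (Fin n) ℤ, A = (rm U)ᵀ * B * rm U := by
  classical
  obtain ⟨v, w, P⟩ := exists_twin _ _ H
  obtain ⟨a, ha, hac⟩ := coh_all P (Finset.univ.filter fun c => Facet red (toForm A hA) v c)
    (fun s hs => (Finset.mem_filter.mp hs).2)
  set T := Finset.univ.filter fun c => Facet red (toForm A hA) v c with hT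
  have h : ∀ x : Fin n → ℤ, ∃ m : (Fin n → ZMod 2) → ℤ,
      (∀ c, c ∉ T → m c = 0) ∧ x = comb v m := by
    intro x
    obtain ⟨m, Q, h1, h2, h3, _⟩ := exists_decomp mod2_red P.sv x
    refine ⟨m, fun c hc => h2 c fun hcQ => hc ?_, h3⟩
    rw [hT]
    exact Finset.mem_filter.mpr ⟨Finset.mem_univ _, h1 c hcQ⟩
  choose m hm1 hm2 using fun k : Fin n => h (Pi.single k 1)
  refine ⟨(Matrix.of fun k => comb a (m k))ᵀ, ?_⟩
  have hU : ∀ k, (Matrix.of fun k => comb a (m k))ᵀ *ᵥ (Pi.single k 1) = comb a (m k) := by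
    intro k
    rw [mulVec_single_one]
    rfl
  ext k l
  rw [← bl_single A k l, ← bl_single ((rm (Matrix.of fun k => comb a (m k))ᵀ)ᵀ * B *
    rm (Matrix.of fun k => comb a (m k))ᵀ) k l, ← bl_mulVec, hU, hU]
  have h1 : (toForm A hA).b (comb v (m k)) (comb v (m l)) =
      (toForm B hB).b (comb a (m k)) (comb a (m l)) := coh_b hac (hm1 k) (hm1 l)
  rw [← hm2 k, ← hm2 l] at h1
  exact h1

/-- Conway–Sloane: a positive definite form is determined by its vonorms, in every dimension. -/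
theorem equiv_of_vonorm (A B : Matrix (Fin n) (Fin n) ℝ) (hA : A.PosDef) (hB : B.PosDef)
    (h : ∀ S : Finset (Fin n), (⨅ x : Fin n → ℤ, half A S x) = (⨅ x : Fin n → ℤ, half B S x)) :
    ∃ U : Matrix (Fin n) (Fin n) ℤ, IsUnit U.det ∧
      B = (U.map (Int.cast : ℤ → ℝ))ᵀ * A * U.map (Int.cast : ℤ → ℝ) :=
  equiv_of_reps A B hA (rep_of_same A B hA hB (same_of_vonorm A B hA hB h))
    (rep_of_same B A hB hA (same_of_vonorm B A hB hA fun S => (h S).symm))

end Pool.H11.CS
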