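import Mathlib
import Pool.Agent.H11.CS.Main

/-!
# The exact fibres of the vonorm map

The isometry found in `Pool.Agent.H11.CS.Main` can be taken congruent to the identity modulo two.
-/

set_option autoImplicit false
set_option linter.unusedSectionVars false

open Pool.H48.Vonorm Matrix

namespace Pool.H11.CS

variable {n : ℕ}

/-- The representation can be taken congruent to the identity modulo two. -/
theorem rep_of_same_mod (A B : Matrix (Fin n) (Fin n) ℝ) (hA : A.PosDef) (hB : B.PosDef)
    (H : Same (toForm A hA) (toForm B hB)) :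
    ∃ U : Matrix (Fin n) (Fin n) ℤ,
      (∀ x : Fin n → ℤ, red (U *ᵥ x) = red x) ∧ A = (rm U)ᵀ * B * rm U := by
  classical
  obtain ⟨v, w, P⟩ := exists_twin _ _ H
  obtain ⟨a, ha, hac⟩ := coh_all P (Finset.univ.filter fun c => Facet red (toForm A hA) v c)
    (fun s hs => (Finset.mem_filter.mp hs).2)
  set T := Finset.univ.filter fun c => Facet red (toForm A hA) v c with hT
  have hra : ∀ c, red (a c) = c := by
    intro c
    rcases ha c with h | h
    · rw [h, P.sw.cls]
    · rw [h, map_neg, P.sw.cls, neg_eq_iff_add_eq_zero]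
      exact mod2_red.two c
  have hcomb : ∀ m : (Fin n → ZMod 2) → ℤ, red (comb a m) = red (comb v m) := by
    intro m
    simp only [comb, map_sum, map_zsmul, hra, P.sv.cls]
  have h : ∀ x : Fin n → ℤ, ∃ m : (Fin n → ZMod 2) → ℤ,
      (∀ c, c ∉ T → m c = 0) ∧ x = comb v m := by
    intro x
    obtain ⟨m, Q, h1, h2, h3, _⟩ := exists_decomp mod2_red P.sv x
    refine ⟨m, fun c hc => h2 c fun hcQ => hc ?_, h3⟩
    rw [hT]
    exact Finset.mem_filter.mpr ⟨Finset.mem_univ _, h1 c hcQ⟩
  choose m hm1 hm2 using fun k : Fin n => h (Pi.single k 1)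
  have hU : ∀ k, (Matrix.of fun k => comb a (m k))ᵀ *ᵥ (Pi.single k 1) = comb a (m k) := by
    intro k
    rw [mulVec_single_one]
    rfl
  refine ⟨(Matrix.of fun k => comb a (m k))ᵀ, ?_, ?_⟩
  · intro x
    have hx : x = ∑ k, x k • (Pi.single k 1 : Fin n → ℤ) := by
      ext i
      simp [Finset.sum_apply, Pi.single_apply]
    have h1 : (Matrix.of fun k => comb a (m k))ᵀ *ᵥ x = ∑ k, x k • comb a (m k) := by
      conv_lhs => rw [hx]
      rw [Matrix.mulVec_sum]
      refine Finset.sum_congr rfl fun k _ => ?_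
      rw [Matrix.mulVec_smul, hU]
    rw [h1]
    conv_rhs => rw [hx]
    simp only [map_sum, map_zsmul]
    refine Finset.sum_congr rfl fun k _ => ?_
    rw [hcomb, ← hm2 k]
  · ext k l
    rw [← bl_single A k l, ← bl_single ((rm (Matrix.of fun k => comb a (m k))ᵀ)ᵀ * B *
      rm (Matrix.of fun k => comb a (m k))ᵀ) k l, ← bl_mulVec, hU, hU]
    have h1 : (toForm A hA).b (comb v (m k)) (comb v (m l)) =
        (toForm B hB).b (comb a (m k)) (comb a (m l)) := coh_b hac (hm1 k) (hm1 l)
    rw [← hm2 k, ← hm2 l] at h1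
    exact h1

/-- Mutually represented positive definite forms: every representation is an equivalence. -/
lemma isUnit_of_reps (A B : Matrix (Fin n) (Fin n) ℝ) (hA : A.PosDef)
    (U W : Matrix (Fin n) (Fin n) ℤ) (hU : A = (rm U)ᵀ * B * rm U)
    (hW : B = (rm W)ᵀ * A * rm W) : IsUnit W.det := by
  have hdet : 0 < A.det := hA.det_pos
  have c : ∀ X : Matrix (Fin n) (Fin n) ℤ, (rm X).det = (X.det : ℝ) := by
    intro X
    have := (Int.castRingHom ℝ).map_det X
    simpa [rm, RingHom.mapMatrix_apply] using this.symm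
  have d1 : A.det = (U.det : ℝ) * B.det * (U.det : ℝ) := by
    conv_lhs => rw [hU]
    rw [det_mul, det_mul, det_transpose, c]
  have d2 : B.det = (W.det : ℝ) * A.det * (W.det : ℝ) := by
    conv_lhs => rw [hW]
    rw [det_mul, det_mul, det_transpose, c]
  rw [d2] at d1
  have d3 : ((U.det : ℝ) * (W.det : ℝ)) ^ 2 = 1 := by
    have : (((U.det : ℝ) * (W.det : ℝ)) ^ 2 - 1) * A.det = 0 := by
      linear_combination -d1
    rcases mul_eq_zero.mp this with h | h
    · linarith
    · exact absurd h hdet.ne'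
  have d4 : (U.det * W.det) ^ 2 = 1 := by exact_mod_cast d3
  have d5 : IsUnit (U.det * W.det) := by
    rw [sq] at d4
    exact IsUnit.of_mul_eq_one _ d4
  exact isUnit_of_mul_isUnit_right d5

/-- A positive definite form is determined by its vonorms up to the principal congruence
subgroup of level two. -/
theorem equiv_mod_of_vonorm (A B : Matrix (Fin n) (Fin n) ℝ) (hA : A.PosDef) (hB : B.PosDef)
    (h : ∀ S : Finset (Fin n), (⨅ x : Fin n → ℤ, half A S x) = (⨅ x : Fin n → ℤ, half B S x)) :
    ∃ U : Matrix (Fin n) (Fin n) ℤ, IsUnit U.det ∧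
      (∀ x : Fin n → ℤ, red (U *ᵥ x) = red x) ∧
      B = (U.map (Int.cast : ℤ → ℝ))ᵀ * A * U.map (Int.cast : ℤ → ℝ) := by
  obtain ⟨U, _, hU⟩ := rep_of_same_mod A B hA hB (same_of_vonorm A B hA hB h)
  obtain ⟨W, hW', hW⟩ := rep_of_same_mod B A hB hA
    (same_of_vonorm B A hB hA fun S => (h S).symm)
  exact ⟨W, isUnit_of_reps A B hA U W hU hW, hW', hW⟩

end Pool.H11.CS
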